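import Mathlib

/-! Maximal subfields and primitive Galois groups. -/

set_option autoImplicit false
set_option maxHeartbeats 400000

namespace Pool.Agent.Lib.MP_f61260_nt

open Polynomial IntermediateField

/-- If there is no field strictly between `K` and `K(θ)`, the Galois group of `θ` over `K` acts
primitively on the roots. -/
lemma mx_prim {K E : Type} [Field K] [CharZero K] [Field E] [Algebra K E] [IsAlgClosed E] {θ : E}
    (hθ : IsIntegral K θ)
    (h : ∀ M : IntermediateField K E, M ≤ adjoin K {θ} → M = ⊥ ∨ θ ∈ M) :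
    MulAction.IsPreprimitive (minpoly K θ).Gal
      ((minpoly K θ).rootSet (minpoly K θ).SplittingField) := by
  classical
  obtain ⟨p, hp⟩ : ∃ p, p = minpoly K θ := ⟨_, rfl⟩
  rw [← hp]
  have hi : Irreducible p := hp ▸ minpoly.irreducible hθ
  have hm : p.Monic := hp ▸ minpoly.monic hθ
  have : IsGalois K p.SplittingField := IsGalois.of_separable_splitting_field hi.separable
  let ψ : p.SplittingField →ₐ[K] E := IsAlgClosed.lift
  have hr : ∀ x : p.rootSet p.SplittingField, minpoly K (x : p.SplittingField) = p := fun x =>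
    (minpoly.eq_of_irreducible_of_monic hi (mem_rootSet.1 x.2).2 hm).symm
  have ht : MulAction.IsPretransitive p.Gal (p.rootSet p.SplittingField) := ⟨fun x y => by
    obtain ⟨σ, hσ⟩ := minpoly.exists_algEquiv_of_root (K := K) (x := (x : p.SplittingField))
      (Algebra.IsAlgebraic.isAlgebraic (y : p.SplittingField))
      (by rw [hr]; exact (mem_rootSet.1 x.2).2)
    exact ⟨σ, Subtype.ext hσ⟩⟩
  have hθ' : θ ∈ p.rootSet E := mem_rootSet.2 ⟨hi.ne_zero, hp ▸ minpoly.aeval K θ⟩
  rw [← (SplittingField.splits p).image_rootSet ψ] at hθ'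
  obtain ⟨o, ho, e⟩ := hθ'
  rcases subsingleton_or_nontrivial (p.rootSet p.SplittingField) with hn | hn
  · exact MulAction.IsPreprimitive.of_subsingleton
  refine (MulAction.isCoatom_stabilizer_iff_preprimitive p.Gal
    (⟨o, ho⟩ : p.rootSet p.SplittingField)).1 ⟨fun h1 => ?_, fun B hB => ?_⟩
  · obtain ⟨y, hy⟩ := exists_ne (⟨o, ho⟩ : p.rootSet p.SplittingField)
    obtain ⟨g, hg⟩ := MulAction.exists_smul_eq p.Gal (⟨o, ho⟩ : p.rootSet p.SplittingField) y
    exact hy (hg.symm.trans (MulAction.mem_stabilizer_iff.1 (h1 ▸ Subgroup.mem_top g)))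
  let B' : Subgroup (p.SplittingField ≃ₐ[K] p.SplittingField) := B
  have h2 : fixedField B' ≤ adjoin K {o} := by
    rw [← IsGalois.fixedField_fixingSubgroup (adjoin K {o})]
    intro x hx
    refine (mem_fixedField_iff _ _).2 fun g hg => (mem_fixedField_iff _ _).1 hx g (hB.le ?_)
    exact Subtype.ext ((IntermediateField.mem_fixingSubgroup_iff _ _).1 hg o
      (mem_adjoin_simple_self K o))
  rcases h ((fixedField B').map ψ) (by
    refine (map_mono ψ h2).trans ?_
    rw [adjoin_map, Set.image_singleton, e]) with h3 | ⟨x, hx, h3⟩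
  · have h4 : fixedField B' = ⊥ := map_injective ψ (by rw [h3, IntermediateField.map_bot])
    have h5 := fixingSubgroup_fixedField B'
    rw [h4, IntermediateField.fixingSubgroup_bot] at h5
    exact h5.symm
  · have h4 : x = o := ψ.injective (h3.trans e.symm)
    exact absurd (fun g hg => Subtype.ext ((mem_fixedField_iff _ _).1 (h4 ▸ hx) g hg)) hB.not_ge

variable {k C : Type} [Field k] [Field C] [Algebra k C]

lemma mx_ext (A : IntermediateField k C) (θ : C) :
    adjoin k (insert θ (A : Set C)) = restrictScalars k (adjoin A {θ}) := by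
  rw [restrictScalars_adjoin, Set.union_singleton]

lemma mx_le (A : IntermediateField k C) (θ : C) : A ≤ adjoin k (insert θ (A : Set C)) :=
  fun _ hy => subset_adjoin _ _ (Set.mem_insert_of_mem _ hy)

lemma mx_mem (A : IntermediateField k C) (θ : C) : θ ∈ adjoin k (insert θ (A : Set C)) :=
  subset_adjoin _ _ (Set.mem_insert _ _)

lemma mx_deg (A : IntermediateField k C) {θ : C} (hθ : IsIntegral A θ) :
    relfinrank A (adjoin k (insert θ (A : Set C))) = (minpoly A θ).natDegree := by
  have e : extendScalars (mx_le A θ) = adjoin A {θ} :=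
    restrictScalars_injective k (by rw [extendScalars_restrictScalars, mx_ext])
  rw [relfinrank_eq_finrank_of_le (mx_le A θ), e, adjoin.finrank hθ]

lemma mx_gen [CharZero C] {A B : IntermediateField k C} (h : A ≤ B) (h0 : relfinrank A B ≠ 0) :
    ∃ θ : C, IsIntegral A θ ∧ B = adjoin k (insert θ (A : Set C)) := by
  rw [relfinrank_eq_finrank_of_le h] at h0
  have : FiniteDimensional A (extendScalars h) :=
    Module.finite_of_finrank_pos (Nat.pos_of_ne_zero h0)
  obtain ⟨θ, hθ⟩ := Field.exists_primitive_element A (extendScalars h)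
  refine ⟨θ, (Algebra.IsIntegral.isIntegral (R := A) θ).map (extendScalars h).val, ?_⟩
  have e := congrArg lift hθ
  rw [lift_adjoin_simple, lift_top] at e
  rw [mx_ext, e, extendScalars_restrictScalars]

/-- A property that holds at the top of a finite extension and fails at the bottom changes at a
primitive step. -/
lemma mx_step [CharZero C] [IsAlgClosed C] {A T : IntermediateField k C} (h : A ≤ T)
    (h0 : relfinrank A T ≠ 0) (P : IntermediateField k C → Prop) (hA : ¬ P A) (hT : P T) :
    ∃ (K : IntermediateField k C) (θ : C), A ≤ K ∧ adjoin k (insert θ (K : Set C)) ≤ T ∧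
      IsIntegral K θ ∧ ¬ P K ∧ P (adjoin k (insert θ (K : Set C))) ∧
      MulAction.IsPreprimitive (minpoly K θ).Gal
        ((minpoly K θ).rootSet (minpoly K θ).SplittingField) := by
  classical
  have m : ∀ {X Y Z : IntermediateField k C}, X ≤ Y → Y ≤ Z → relfinrank X Z ≠ 0 →
      relfinrank X Y ≠ 0 ∧ relfinrank Y Z ≠ 0 := fun h1 h2 h3 =>
    mul_ne_zero_iff.1 (relfinrank_mul_relfinrank h1 h2 ▸ h3)
  have hex : ∃ n, ∃ K L : IntermediateField k C, A ≤ K ∧ K ≤ L ∧ L ≤ T ∧ ¬ P K ∧ P L ∧
      relfinrank K L = n := ⟨_, A, T, le_rfl, h, le_rfl, hA, hT, rfl⟩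
  obtain ⟨K, L, a1, a2, a3, a4, a5, a6⟩ := Nat.find_spec hex
  have a7 : relfinrank K L ≠ 0 := (m a2 a3 (m a1 (a2.trans a3) h0).2).1
  obtain ⟨θ, b1, rfl⟩ := mx_gen a2 a7
  refine ⟨K, θ, a1, a3, b1, a4, a5, mx_prim b1 fun M hM => ?_⟩
  have c1 : K ≤ restrictScalars k M := fun y hy => M.algebraMap_mem ⟨y, hy⟩
  have c2 : restrictScalars k M ≤ adjoin k (insert θ (K : Set C)) := by
    rw [mx_ext]
    exact hM
  have c3 := relfinrank_mul_relfinrank c1 c2
  obtain ⟨c4, c5⟩ := m c1 c2 a7
  by_cases hP : P (restrictScalars k M)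
  · have c6 := Nat.find_min' hex ⟨K, _, a1, c1, c2.trans a3, a4, hP, rfl⟩
    rw [← a6, ← c3] at c6
    have c7 : relfinrank (restrictScalars k M) (adjoin k (insert θ (K : Set C))) = 1 := by
      have := Nat.le_of_mul_le_mul_left (c6.trans_eq (mul_one _).symm) (Nat.pos_of_ne_zero c4)
      omega
    exact Or.inr (relfinrank_eq_one_iff.1 c7 (mx_mem K θ))
  · have c6 := Nat.find_min' hex ⟨_, _, a1.trans c1, c2, a3, hP, a5, rfl⟩
    rw [← a6, ← c3] at c6
    have c7 : relfinrank K (restrictScalars k M) = 1 := by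
      have := Nat.le_of_mul_le_mul_right (c6.trans_eq (one_mul _).symm) (Nat.pos_of_ne_zero c5)
      omega
    exact Or.inl (eq_bot_iff.2 fun y hy => ⟨⟨y, relfinrank_eq_one_iff.1 c7 hy⟩, rfl⟩)

end Pool.Agent.Lib.MP_f61260_nt
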