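import Pool.Agent.Lib.MP_f61260_nt.Pr.Top
import Pool.Agent.Lib.MP_f61260_nt.Pr.Max

/-! Consequences of the bound with one critical step. -/

set_option autoImplicit false
set_option maxHeartbeats 400000

namespace Pool.Agent.Lib.MP_f61260_nt

open Polynomial Real IntermediateField

lemma crit_mul {Γ : Subgroup ℂˣ} {G : Set ℂ}
    (hG : G = {z : ℂ | z ≠ 0 ∧ ∃ k : ℕ, 1 ≤ k ∧ ∃ g ∈ Γ, (g : ℂ) = z ^ k}) {x y : ℂ} (hx : x ∈ G)
    (hy : y ∈ G) : x / y ∈ G := by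
  subst hG
  obtain ⟨a0, k, hk, g, hg, e⟩ := hx
  obtain ⟨b0, l, hl, g', hg', e'⟩ := hy
  refine ⟨div_ne_zero a0 b0, k * l, Nat.mul_pos hk hl, g ^ l / g' ^ k,
    Γ.div_mem (Γ.pow_mem hg l) (Γ.pow_mem hg' k), ?_⟩
  rw [Units.val_div_eq_div_val, Units.val_pow_eq_pow_val, Units.val_pow_eq_pow_val, e, e', div_pow,
    ← pow_mul, ← pow_mul, mul_comm l]

lemma crit_root {k C : Type} [Field k] [Field C] [Algebra k C] {A M : IntermediateField k C}
    (h : A ≤ M) {α η β : C} (hη : η ∈ M) (hβ : aeval β (minpoly M α) = 0) :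
    aeval (β * η) (minpoly A (α * η)) = 0 := by
  have e : ∀ x : C, aeval x (((minpoly A (α * η)).map (inclusion h).toRingHom).comp
      (X * Polynomial.C (⟨η, hη⟩ : M))) = aeval (x * η) (minpoly A (α * η)) := fun x => by
    rw [aeval_comp, map_mul, aeval_X, aeval_C, aeval_def, eval₂_map, aeval_def]
    rfl
  obtain ⟨q, hq⟩ := minpoly.dvd M α ((e α).trans (minpoly.aeval _ _))
  rw [← e, hq, map_mul, hβ, zero_mul]

lemma crit_alg {θ : ℕ → ℂ} {F : ℕ → IntermediateField ℚ ℂ} (hθ : ∀ i, IsAlgebraic ℚ (θ i))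
    (h0 : F 0 ≤ algebraicClosure ℚ ℂ) (hF : ∀ i, F (i + 1) = adjoin ℚ (insert (θ i) (F i : Set ℂ)))
    (i : ℕ) : F i ≤ algebraicClosure ℚ ℂ := by
  induction i with
  | zero => exact h0
  | succ i ih =>
    rw [hF]
    exact adjoin_le_iff.2 (Set.insert_subset (mem_algebraicClosure_iff.2 (hθ i)) ih)

lemma crit_base {S : Finset ℕ} {Γ : Subgroup ℂˣ} (halg : ∀ g ∈ Γ, IsAlgebraic ℚ (g : ℂ)) {n : ℕ}
    (hn : 1 ≤ n) : adjoin ℚ {z : ℂ | ∃ s : ℕ, 1 ≤ s ∧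
      (z ^ s = 1 ∨ (s.primeFactors ⊆ S ∧ ∃ g ∈ Γ, (g : ℂ) = z ^ (n * s)))} ≤
      algebraicClosure ℚ ℂ := by
  refine adjoin_le_iff.2 ?_
  rintro z ⟨s, hs, h | ⟨-, g, hg, h⟩⟩
  · exact mem_algebraicClosure_iff.2 (IsAlgebraic.of_pow hs (h ▸ isAlgebraic_one))
  · exact mem_algebraicClosure_iff.2 (IsAlgebraic.of_pow (Nat.mul_pos hn hs) (h ▸ halg g hg))

lemma crit_int (F : IntermediateField ℚ ℂ) {x : ℂ} (hx : IsAlgebraic ℚ x) : IsIntegral F x :=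
  ev_int F ⟨x, mem_algebraicClosure_iff.2 hx⟩

/-- The earlier form, with a hypothesis at every step from `j` on. -/
theorem prim_tower (S : Finset ℕ) (Γ : Subgroup ℂˣ) (hΓ : Γ.FG)
    (halg : ∀ g ∈ Γ, IsAlgebraic ℚ (g : ℂ)) (G : Set ℂ)
    (hG : G = {z : ℂ | z ≠ 0 ∧ ∃ k : ℕ, 1 ≤ k ∧ ∃ g ∈ Γ, (g : ℂ) = z ^ k}) (m : ℕ) :
    ∃ c : ℝ, 0 < c ∧ ∃ κ : ℕ, ∀ n : ℕ, 1 ≤ n →
      ∀ (θ : ℕ → ℂ) (F : ℕ → IntermediateField ℚ ℂ) (d : ℕ → ℕ), (∀ i, IsAlgebraic ℚ (θ i)) →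
      F 0 = adjoin ℚ {z : ℂ | ∃ s : ℕ, 1 ≤ s ∧
        (z ^ s = 1 ∨ (s.primeFactors ⊆ S ∧ ∃ g ∈ Γ, (g : ℂ) = z ^ (n * s)))} →
      (∀ i, F (i + 1) = adjoin ℚ (insert (θ i) (F i : Set ℂ))) →
      (∀ i, d i = (minpoly (F i) (θ i)).natDegree) →
      ∀ α : ℂ, α ≠ 0 → α ∉ G → ∀ η ∈ G, ∀ j t : ℕ, j ≤ t → α * η ∈ F t →
      (∀ i, j ≤ i → i < t → Tame m (minpoly (F i) (θ i)).Gal
          ((minpoly (F i) (θ i)).rootSet (minpoly (F i) (θ i)).SplittingField) ∨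
        Real.log (3 * d i) ^ κ ≤ (∏ l ∈ Finset.range i, d l : ℕ) ∨
        ∃ β : ℂ, aeval β (minpoly (adjoin ℚ ((F (i + 1) : Set ℂ) ∪ G)) α) = 0 ∧
          β / α ∉ G ∧ β * α ∉ G) →
      ∀ f : Polynomial ℤ, Irreducible f → aeval α f = 0 →
        c / ((∏ i ∈ Finset.range t, d i : ℕ) *
            Real.log (3 * (n * (∏ i ∈ Finset.range j, d i : ℕ))) ^ κ)
          ≤ Real.log (mahlerMeasure (f.map (Int.castRingHom ℂ))) / (f.natDegree : ℝ) := by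
  obtain ⟨c, hc, δ, -, κ, H⟩ := crit_tower S Γ hΓ halg G hG m
  refine ⟨c, hc, κ, fun n hn θ F d hθ hF0 hF hd α hα hnd η hη j t hj hmem hst f hf hfα => ?_⟩
  have hη0 : η ≠ 0 := (hG ▸ hη :).1
  have ha := mem_algebraicClosure_iff.1 (crit_alg hθ (hF0 ▸ crit_base halg hn) hF t hmem)
  have := H n hn θ F d hθ hF0 hF hd α hα hnd η hη j t hj hmem 1 le_rfl
    (fun e _ => minpoly.natDegree_pos (crit_int _ (ha.pow e))) (fun i h1 h2 _ h4 => ?_) f hf hfα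
  · simpa using this
  rcases hst i h1 h2 with h | h | ⟨β, h, b1, b2⟩
  · exact Or.inl h
  · exact Or.inr (by simpa using h)
  exfalso
  rcases h4 _ (crit_root (fun y hy => subset_adjoin _ _ (Or.inl hy))
    (subset_adjoin _ _ (Or.inr hη)) h) with h | h
  · have := crit_mul hG h hη
    rw [show β * η / α / η = β / α by field_simp] at this
    exact b1 this
  · have := crit_mul hG h hη
    rw [show β * η * α / η = β * α by field_simp] at this
    exact b2 this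

/-- Either the bound without the logarithm of the degree holds, or there is a primitive step that
is not tame over a small base. -/
theorem crit_split (S : Finset ℕ) (Γ : Subgroup ℂˣ) (hΓ : Γ.FG)
    (halg : ∀ g ∈ Γ, IsAlgebraic ℚ (g : ℂ)) (G : Set ℂ)
    (hG : G = {z : ℂ | z ≠ 0 ∧ ∃ k : ℕ, 1 ≤ k ∧ ∃ g ∈ Γ, (g : ℂ) = z ^ k}) (m : ℕ) :
    ∃ c : ℝ, 0 < c ∧ ∃ δ : ℝ, 0 < δ ∧ ∃ κ : ℕ, ∀ n : ℕ, 1 ≤ n → ∀ F : IntermediateField ℚ ℂ,
      F = adjoin ℚ {z : ℂ | ∃ s : ℕ, 1 ≤ s ∧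
        (z ^ s = 1 ∨ (s.primeFactors ⊆ S ∧ ∃ g ∈ Γ, (g : ℂ) = z ^ (n * s)))} →
      ∀ α : ℂ, α ≠ 0 → α ∉ G → ∀ N : ℕ, 1 ≤ N →
      (∀ e : ℕ, 1 ≤ e → N ≤ (minpoly F (α ^ e)).natDegree) →
      ∀ f : Polynomial ℤ, Irreducible f → aeval α f = 0 →
        c * (N : ℝ) ^ δ / ((minpoly F α).natDegree * Real.log (3 * n) ^ κ)
          ≤ Real.log (mahlerMeasure (f.map (Int.castRingHom ℂ))) / (f.natDegree : ℝ) ∨
        ∃ (K : IntermediateField ℚ ℂ) (θ : ℂ), F ≤ K ∧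
          adjoin ℚ (insert θ (K : Set ℂ)) ≤ adjoin ℚ (insert α (F : Set ℂ)) ∧
          MulAction.IsPreprimitive (minpoly K θ).Gal
            ((minpoly K θ).rootSet (minpoly K θ).SplittingField) ∧
          ¬ Tame m (minpoly K θ).Gal ((minpoly K θ).rootSet (minpoly K θ).SplittingField) ∧
          (relfinrank F K : ℝ) < N * Real.log (3 * (minpoly K θ).natDegree) ^ κ := by
  obtain ⟨c, hc, δ, hδ, κ, H⟩ := crit_tower S Γ hΓ halg G hG m
  refine ⟨c, hc, δ, hδ, κ, fun n hn F hF α hα hnd N hN1 hN f hf hfα => ?_⟩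
  have h1 : (1 : ℂ) ∈ G := hG ▸ ⟨one_ne_zero, 1, le_rfl, 1, Γ.one_mem, by simp⟩
  have ha : IsAlgebraic ℚ α :=
    IsAlgebraic.extendScalars (FaithfulSMul.algebraMap_injective ℤ ℚ) ⟨f, hf.ne_zero, hfα⟩
  have hT : adjoin ℚ (insert α (F : Set ℂ)) ≤ algebraicClosure ℚ ℂ :=
    adjoin_le_iff.2 (Set.insert_subset (mem_algebraicClosure_iff.2 ha) (hF ▸ crit_base halg hn))
  have hD := mx_deg F (crit_int F ha)
  have hD0 : relfinrank F (adjoin ℚ (insert α (F : Set ℂ))) ≠ 0 :=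
    hD ▸ (minpoly.natDegree_pos (crit_int F ha)).ne'
  let P : IntermediateField ℚ ℂ → Prop := fun L =>
    ∀ β : ℂ, aeval β (minpoly L α) = 0 → β / α ∈ G ∨ β * α ∈ G
  have key : ∀ θ : ℕ → ℂ, (∀ i, IsAlgebraic ℚ (θ i)) → ∀ (L : ℕ → IntermediateField ℚ ℂ) (t : ℕ),
      L 0 = F → (∀ i, L (i + 1) = adjoin ℚ (insert (θ i) (L i : Set ℂ))) →
      L t = adjoin ℚ (insert α (F : Set ℂ)) →
      (∀ i < t, ¬ P (L i) → P (L (i + 1)) → Tame m (minpoly (L i) (θ i)).Gal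
          ((minpoly (L i) (θ i)).rootSet (minpoly (L i) (θ i)).SplittingField) ∨
        N * Real.log (3 * (minpoly (L i) (θ i)).natDegree) ^ κ ≤ relfinrank F (L i)) →
      c * (N : ℝ) ^ δ / ((minpoly F α).natDegree * Real.log (3 * n) ^ κ)
        ≤ Real.log (mahlerMeasure (f.map (Int.castRingHom ℂ))) / (f.natDegree : ℝ) := by
    intro θ hθ L t l0 l1 l2 l3
    have e : ∀ i, F ≤ L i ∧
        ∏ l ∈ Finset.range i, (minpoly (L l) (θ l)).natDegree = relfinrank F (L i) := fun i => by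
      induction i with
      | zero => exact ⟨l0.ge, by simp [l0]⟩
      | succ i ih =>
        rw [Finset.prod_range_succ, ih.2, l1, ← mx_deg _ (crit_int _ (hθ i)),
          relfinrank_mul_relfinrank ih.1 (mx_le _ _)]
        exact ⟨ih.1.trans (mx_le _ _), rfl⟩
    have := H n hn θ L _ hθ (l0.trans hF) l1 (fun _ => rfl) α hα hnd 1 h1 0 t t.zero_le
      (by rw [mul_one, l2]; exact mx_mem _ _) N hN1 (by rw [mul_one, l0]; exact hN)
      (fun i _ hi a b => by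
        rw [mul_one] at a b
        rw [(e i).2]
        obtain ⟨β, a1, a2, a3⟩ := a
        exact l3 i hi (fun h => (h β a1).elim a2 a3) b) f hf hfα
    rw [(e t).2, l2, hD] at this
    simpa using this
  by_cases hP : P F
  · refine Or.inl (key (fun _ => α) (fun _ => ha)
      (fun i => Nat.rec F (fun _ L => adjoin ℚ (insert α (L : Set ℂ))) i) 1 rfl (fun _ => rfl) rfl
      fun i hi h => ?_)
    obtain rfl : i = 0 := by omega
    exact absurd hP h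
  obtain ⟨K, θ, a1, a2, a3, a4, a5, a6⟩ := mx_step (mx_le F α) hD0 P hP fun β h => by
    have := minpoly.eq_X_sub_C ℂ (⟨α, mx_mem F α⟩ : adjoin ℚ (insert α (F : Set ℂ)))
    rw [show minpoly _ α = _ from this, map_sub, aeval_X, aeval_C, sub_eq_zero] at h
    exact Or.inl (by rw [h]; exact (div_self hα).symm ▸ h1)
  by_contra hc'
  rw [not_or] at hc'
  have a7 := (mx_le K θ).trans a2
  obtain ⟨ω, -, b2⟩ := mx_gen a1 (mul_ne_zero_iff.1 (relfinrank_mul_relfinrank a1 a7 ▸ hD0)).1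
  let ϑ : ℕ → ℂ := fun i => if i = 0 then ω else if i = 1 then θ else α
  refine hc'.1 (key ϑ (fun i => ?_)
    (fun i => Nat.rec F (fun i L => adjoin ℚ (insert (ϑ i) (L : Set ℂ))) i) 3 rfl (fun _ => rfl) ?_
    fun i hi h h' => ?_)
  · simp only [ϑ]
    split_ifs
    · exact mem_algebraicClosure_iff.1 (hT (a7 (b2 ▸ mx_mem F ω)))
    · exact mem_algebraicClosure_iff.1 (hT (a2 (mx_mem K θ)))
    · exact ha
  · change adjoin ℚ (insert α (adjoin ℚ (insert θ (adjoin ℚ (insert ω (F : Set ℂ)) : Set ℂ)) :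
      Set ℂ)) = _
    rw [← b2]
    exact le_antisymm (adjoin_le_iff.2 (Set.insert_subset (mx_mem _ _) a2))
      (adjoin.mono _ _ _ (Set.insert_subset_insert (a1.trans (mx_le K θ))))
  · subst b2
    obtain rfl | rfl | rfl : i = 0 ∨ i = 1 ∨ i = 2 := by omega
    · exact absurd h' a4
    · by_contra h2
      rw [not_or, not_le] at h2
      exact hc'.2 ⟨_, θ, a1, a2, a6, h2.1, h2.2⟩
    · exact absurd a5 h

lemma crit_eq {k C : Type} [Field k] [Field C] [Algebra k C] {A M : IntermediateField k C}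
    (h : A ≤ M) {α : C} (hα : IsIntegral A α) (hM : IsIntegral M α)
    (hc : ∀ i, ((minpoly M α).coeff i : C) ∈ A) :
    (minpoly A α).natDegree = (minpoly M α).natDegree := by
  have e : ∀ q : A[X], aeval α (q.map (inclusion h).toRingHom) = aeval α q := fun q => by
    rw [aeval_def, eval₂_map, aeval_def]
    rfl
  have h0 := lifts_and_natDegree_eq_and_monic (f := (inclusion h).toRingHom)
    ((lifts_iff_coeff_lifts _).2 fun i => ⟨⟨_, hc i⟩, rfl⟩) (minpoly.monic hM)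
  rcases h0 with ⟨q, h0⟩
  refine le_antisymm ((natDegree_le_natDegree (minpoly.min A α h0.2.2 ?_)).trans h0.2.1.le) ?_
  · rw [← e, h0.1]
    exact minpoly.aeval M α
  · exact (natDegree_le_natDegree (minpoly.min M α ((minpoly.monic hα).map _)
      ((e _).trans (minpoly.aeval _ _)))).trans natDegree_map_le

/-- Every algebraic number has a level at which its degree is the degree over the full field. -/
theorem crit_level (S : Finset ℕ) (Γ : Subgroup ℂˣ) (G : Set ℂ)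
    (hG : G = {z : ℂ | z ≠ 0 ∧ ∃ k : ℕ, 1 ≤ k ∧ ∃ g ∈ Γ, (g : ℂ) = z ^ k}) (α : ℂ)
    (hα : IsAlgebraic ℚ α) : ∃ n : ℕ, 1 ≤ n ∧
      (minpoly (adjoin ℚ {z : ℂ | ∃ s : ℕ, 1 ≤ s ∧
        (z ^ s = 1 ∨ (s.primeFactors ⊆ S ∧ ∃ g ∈ Γ, (g : ℂ) = z ^ (n * s)))}) α).natDegree =
      (minpoly (adjoin ℚ G) α).natDegree := by
  obtain ⟨F, hF⟩ : ∃ F : ℕ → IntermediateField ℚ ℂ, ∀ n, F n = adjoin ℚ {z : ℂ | ∃ s : ℕ, 1 ≤ s ∧
      (z ^ s = 1 ∨ (s.primeFactors ⊆ S ∧ ∃ g ∈ Γ, (g : ℂ) = z ^ (n * s)))} := ⟨_, fun _ => rfl⟩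
  have h1 : ∀ y ∈ adjoin ℚ G, ∃ n, 0 < n ∧ ∀ q, y ∈ F (n * q) := by
    intro y hy
    induction hy using adjoin_induction with
    | mem z hz =>
      obtain ⟨-, k, hk, g, hg, e⟩ := (hG ▸ hz :)
      refine ⟨k, hk, fun q => hF _ ▸ subset_adjoin _ _ ⟨1, le_rfl, Or.inr ⟨by simp, g ^ q,
        Γ.pow_mem hg q, ?_⟩⟩⟩
      rw [Units.val_pow_eq_pow_val, e, mul_one, pow_mul]
    | algebraMap x => exact ⟨1, one_pos, fun q => (F _).algebraMap_mem x⟩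
    | add x y _ _ hx hy =>
      obtain ⟨a, ha, hx⟩ := hx
      obtain ⟨b, hb, hy⟩ := hy
      exact ⟨a * b, Nat.mul_pos ha hb, fun q => add_mem (mul_assoc a b q ▸ hx (b * q))
        (by rw [mul_comm a, mul_assoc]; exact hy _)⟩
    | inv x _ hx =>
      obtain ⟨a, ha, hx⟩ := hx
      exact ⟨a, ha, fun q => inv_mem (hx q)⟩
    | mul x y _ _ hx hy =>
      obtain ⟨a, ha, hx⟩ := hx
      obtain ⟨b, hb, hy⟩ := hy
      exact ⟨a * b, Nat.mul_pos ha hb, fun q => mul_mem (mul_assoc a b q ▸ hx (b * q))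
        (by rw [mul_comm a, mul_assoc]; exact hy _)⟩
  choose a ha ha' using fun i => h1 _ ((minpoly (adjoin ℚ G) α).coeff i).2
  have hn : 0 < ∏ i ∈ (minpoly (adjoin ℚ G) α).support, a i := Finset.prod_pos fun i _ => ha i
  refine ⟨_, hn, ?_⟩
  rw [← hF]
  refine crit_eq ?_ (crit_int _ hα) (crit_int _ hα) fun i => ?_
  · rw [hF]
    refine adjoin.mono _ _ _ (Set.Subset.trans ?_ hG.ge)
    rintro z ⟨s, hs, h | ⟨-, g, hg, h⟩⟩
    · exact ⟨fun e => by simp [e, Nat.ne_of_gt hs] at h, s, hs, 1, Γ.one_mem, by simp [h]⟩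
    · exact ⟨fun e => g.ne_zero (by rw [h, e, zero_pow (Nat.mul_pos hn hs).ne']), _,
        Nat.mul_pos hn hs, g, hg, h⟩
  · by_cases hi : i ∈ (minpoly (adjoin ℚ G) α).support
    · obtain ⟨q, hq⟩ := Finset.dvd_prod_of_mem a hi
      exact hq ▸ ha' i q
    · rw [notMem_support_iff.1 hi]
      exact zero_mem _

end Pool.Agent.Lib.MP_f61260_nt
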