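import Mathlib

/-! Permutation groups that are far from the full symmetric group. -/

set_option autoImplicit false

namespace Pool.Agent.Lib.MP_f61260_nt

/-- The group `H` acting on `Ω` has a transitive solvable normal subgroup, or its order is at most
`|Ω| ^ m`, or it is primitive and for some `r` between `1` and `m` there is a set `W` whose
pointwise stabiliser has index at most `|Ω| ^ (r + 1 - 1 / m)`, where either `r = 1` and `W` has two
points, or `W` has more than `r ^ 2 + 1` points and the elements preserving `W` are doubly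
transitive on `W`. -/
def Tame (m : ℕ) (H Ω : Type) [Group H] [MulAction H Ω] : Prop :=
  (∃ N : Subgroup H, N.Normal ∧ Group.IsSolvable N ∧ MulAction.IsPretransitive N Ω) ∨
    Nat.card H ≤ Nat.card Ω ^ m ∨
    (MulAction.IsPreprimitive H Ω ∧ ∃ (r : ℕ) (W : Set Ω), 1 ≤ r ∧ r ≤ m ∧
      (fixingSubgroup H W).index ^ m * Nat.card Ω ≤ Nat.card Ω ^ ((r + 1) * m) ∧
      (r = 1 ∧ W.ncard = 2 ∨ r ^ 2 + 1 < W.ncard ∧
        ∀ x ∈ W, ∀ y ∈ W, ∀ x' ∈ W, ∀ y' ∈ W, x ≠ y → x' ≠ y' →
          ∃ g : H, (∀ w ∈ W, g • w ∈ W) ∧ g • x = x' ∧ g • y = y'))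

end Pool.Agent.Lib.MP_f61260_nt
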