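import Pool.Agent.Lib.MP_f61260_nt.Sl.Fn2

/-! The Galois group of a step as a quotient of a group of finite level. -/

set_option autoImplicit false
set_option maxHeartbeats 400000

namespace Pool.Agent.Lib.MP_f61260_nt

open Polynomial Filter IntermediateField

lemma fg_basis2 {G : Type} [CommGroup G] (Γ : Subgroup G) (hΓ : Γ.FG) :
    ∃ (ι : Type) (_ : Fintype ι) (γ : ι → G), (∀ a, γ a ∈ Γ) ∧
      (∀ (w : ι → ℤ) (N : ℕ), 0 < N → (∏ a, γ a ^ w a) ^ N = 1 → w = 0) ∧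
      ∀ g ∈ Γ, ∃ (w : ι → ℤ) (N : ℕ), 0 < N ∧ g ^ N = (∏ a, γ a ^ w a) ^ N := by
  classical
  have : Group.FG Γ := (Group.fg_iff_subgroup_fg Γ).2 hΓ
  have : Module.Finite ℤ (Additive Γ) := Module.Finite.iff_addGroup_fg.2 inferInstance
  let b := Module.Free.chooseBasis ℤ (Additive Γ ⧸ Submodule.torsion ℤ (Additive Γ))
  choose x hx using fun a => (Submodule.torsion ℤ (Additive Γ)).mkQ_surjective (b a)
  have e : ∀ w : _ → ℤ, ((Additive.toMul (∑ a, w a • x a) : Γ) : G) =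
      ∏ a, ((Additive.toMul (x a) : Γ) : G) ^ w a := fun w => by
    simp [toMul_sum, toMul_zsmul]
  have e' : ∀ w : _ → ℤ, (Submodule.torsion ℤ (Additive Γ)).mkQ (∑ a, w a • x a) =
      ∑ a, w a • b a := fun w => by simp only [map_sum, map_zsmul, hx]
  refine ⟨_, inferInstance, fun a => ((Additive.toMul (x a) : Γ) : G), fun a => Subtype.prop _,
    fun w N hN h => funext (Fintype.linearIndependent_iff.1 b.linearIndependent w ?_),
    fun g hg => ?_⟩
  · rw [← e', Submodule.mkQ_apply, Submodule.Quotient.mk_eq_zero]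
    refine ⟨⟨N, mem_nonZeroDivisors_of_ne_zero (by exact_mod_cast hN.ne')⟩, ?_⟩
    rw [← e] at h
    change (N : ℤ) • (∑ a, w a • x a) = 0
    rw [natCast_zsmul]
    exact Additive.toMul.injective (Subtype.ext h)
  · obtain ⟨w, hw⟩ : ∃ w : _ → ℤ, ∑ a, w a • b a =
        (Submodule.torsion ℤ (Additive Γ)).mkQ (Additive.ofMul ⟨g, hg⟩) := ⟨_, b.sum_repr _⟩
    rw [← e', Submodule.mkQ_apply, Submodule.mkQ_apply, Submodule.Quotient.eq] at hw
    obtain ⟨⟨N, hN⟩, h⟩ := hw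
    have h1 : N.natAbs • ((∑ a, w a • x a) - Additive.ofMul (⟨g, hg⟩ : Γ)) = 0 := by
      have h2 : N • ((∑ a, w a • x a) - Additive.ofMul (⟨g, hg⟩ : Γ)) = 0 := h
      rw [← natCast_zsmul, Int.natCast_natAbs]
      rcases abs_choice N with h' | h' <;> rw [h']
      · exact h2
      · rw [neg_smul, h2, neg_zero]
    rw [smul_sub, sub_eq_zero] at h1
    refine ⟨w, N.natAbs, Int.natAbs_pos.2 (nonZeroDivisors.ne_zero hN), ?_⟩
    rw [← e]
    exact (congrArg (fun y => ((Additive.toMul y : Γ) : G)) h1).symm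

lemma hom_of_agree {𝒢 H Ω X : Type} [Group 𝒢] [Group H] [MulAction H Ω] [MulAction 𝒢 X]
    (hf : ∀ s s' : H, (∀ x : Ω, s • x = s' • x) → s = s') {e : Ω → X} (he : Function.Injective e)
    {A : Subgroup 𝒢} (h : ∀ g ∈ A, ∃ s : H, ∀ x, e (s • x) = g • e x)
    (h' : ∀ s : H, ∃ g ∈ A, ∀ x, e (s • x) = g • e x) :
    ∃ φ : A →* H, Function.Surjective φ ∧ ∀ (g : A) x, e (φ g • x) = (g : 𝒢) • e x := by
  choose f hf' using fun g : A => h g g.2
  refine ⟨MonoidHom.mk' f fun g g' => hf _ _ fun x => he ?_, fun s => ?_, hf'⟩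
  · rw [mul_smul, hf', hf', hf', Subgroup.coe_mul, mul_smul]
  · obtain ⟨g, hg, h1⟩ := h' s
    exact ⟨⟨g, hg⟩, hf _ _ fun x => he ((hf' _ x).trans (h1 x).symm)⟩

lemma ev_gal2 {A : ℕ → Subgroup GA} {F : IntermediateField ℚ ℂ} (h : F ≤ EvF A)
    (h' : ∀ j, ∀ g : GA, (∀ y : Qb, (y : ℂ) ∈ F → g y = y) → g ∈ A j) (x : Qb) {p : F[X]}
    (hp : p = minpoly F (x : ℂ)) :
    ∀ᶠ j in atTop, ∃ (φ : A j →* p.Gal) (o : p.rootSet p.SplittingField), Function.Surjective φ ∧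
      ∀ g : A j, φ g • o = o → (g : GA) x = x := by
  have h0 : p ≠ 0 := hp ▸ minpoly.ne_zero (ev_int F x)
  have hle : F ≤ algebraicClosure ℚ ℂ := h.trans EvF_alg
  let _ : Algebra F Qb := (inclusion hle).toRingHom.toAlgebra
  have : IsScalarTower F Qb ℂ := IsScalarTower.of_algebraMap_eq fun _ => rfl
  have : IsScalarTower ℚ F Qb := IsScalarTower.of_algebraMap_eq fun _ => rfl
  have hal : Algebra.IsAlgebraic F Qb := Algebra.IsAlgebraic.tower_top (K := ℚ) F
  have : IsAlgClosure F Qb := ⟨inferInstance, hal⟩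
  have : Fact (p.map (algebraMap F Qb)).Splits := ⟨IsAlgClosed.splits _⟩
  have hs := adjoin_rootSet_isSplittingField (IsAlgClosed.splits (p.map (algebraMap F ℂ)))
  have := IsSplittingField.finiteDimensional (adjoin F (p.rootSet ℂ)) p
  obtain ⟨ω, -, h2⟩ := ev_fin h (adjoin F (p.rootSet ℂ))
  have h3 : ∀ y : p.rootSet Qb, ∀ᶠ j in atTop, Fx (A j ⊓ St ℚ ω) y := fun y =>
    mem_EvF.1 (h2 _ (subset_adjoin _ _ (mem_rootSet.2 ⟨h0, by
      change aeval (algebraMap Qb ℂ y) p = 0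
      rw [Polynomial.aeval_algebraMap_apply, (mem_rootSet.1 y.2).2, map_zero]⟩)))
  have h4 : ∀ (σ : Qb ≃ₐ[F] Qb) (y : p.rootSet p.SplittingField),
      (Gal.rootsEquivRoots p Qb (Gal.restrict p Qb σ • y) : Qb) = σ (Gal.rootsEquivRoots p Qb y) :=
    fun σ y => by
      rw [← Gal.restrict_smul, Gal.smul_def, Equiv.symm_apply_apply]
  have hx : x ∈ p.rootSet Qb := mem_rootSet.2 ⟨h0, (algebraMap Qb ℂ).injective (by
    rw [← Polynomial.aeval_algebraMap_apply, map_zero, hp]; exact minpoly.aeval F _)⟩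
  filter_upwards [eventually_all.2 h3, ev_root h (minpoly F (ω : ℂ))] with j e1 e2
  obtain ⟨φ, a1, a2⟩ := hom_of_agree (H := p.Gal) (Ω := p.rootSet p.SplittingField) (A := A j)
    (fun s s' hs => Gal.ext p fun y hy => congrArg Subtype.val (hs ⟨y, hy⟩))
    (e := fun y => (Gal.rootsEquivRoots p Qb y : Qb))
    (Subtype.val_injective.comp (Gal.rootsEquivRoots p Qb).injective) (fun g hg => by
      obtain ⟨σ, b1, b2⟩ := fn2_conj hle ω (e2 g hg ω (minpoly.aeval F _))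
      refine ⟨Gal.restrict p Qb (AlgEquiv.ofRingEquiv (f := σ.toRingEquiv) fun y => b2 _ y.2),
        fun y => (h4 _ y).trans ?_⟩
      have b3 := e1 (Gal.rootsEquivRoots p Qb y) (σ⁻¹ * g)
        ⟨(A j).mul_mem ((A j).inv_mem (h' j σ b2)) hg, by
          change σ⁻¹ (g ω) = ω
          rw [← Subtype.ext b1, ← AlgEquiv.mul_apply, inv_mul_cancel, AlgEquiv.one_apply]⟩
      change σ _ = g _
      rw [← congrArg σ b3, ← AlgEquiv.mul_apply, mul_inv_cancel_left])
    fun s => by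
      obtain ⟨σ, rfl⟩ := Gal.restrict_surjective p Qb s
      exact ⟨σ.restrictScalars ℚ, h' j _ fun y hy => σ.commutes ⟨y, hy⟩, h4 σ⟩
  refine ⟨φ, (Gal.rootsEquivRoots p Qb).symm ⟨x, hx⟩, a1, fun g hg => ?_⟩
  have := a2 g ((Gal.rootsEquivRoots p Qb).symm ⟨x, hx⟩)
  rw [hg, Equiv.apply_symm_apply] at this
  exact this.symm

lemma card_roots_eq (F : IntermediateField ℚ ℂ) (x : Qb) :
    Nat.card ((minpoly F (x : ℂ)).rootSet (minpoly F (x : ℂ)).SplittingField) =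
      (minpoly F (x : ℂ)).natDegree := by
  rw [Nat.card_eq_fintype_card]
  exact card_rootSet_eq_natDegree (minpoly.irreducible (ev_int F x)).separable
    (SplittingField.splits _)

end Pool.Agent.Lib.MP_f61260_nt
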