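import Pool.Agent.Lib.MP_f61260_nt.Sl.Mn2

/-! Numerical inequalities for small joint indices. -/

set_option autoImplicit false
set_option maxHeartbeats 400000

namespace Pool.Agent.Lib.MP_f61260_nt

open Real

/-- the joint index `J` of `r + 1` conjugates saves a power of the logarithm -/
def Sm (κ : ℕ) (K : ℝ) (J D r : ℕ) : Prop :=
  0 < J ∧ (J : ℝ) * log (3 * J) ^ κ ≤ K * D ^ (r + 1)

lemma Sm.mono {κ J D r : ℕ} {K K' : ℝ} (h : Sm κ K J D r) (hK : K ≤ K') : Sm κ K' J D r :=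
  ⟨h.1, h.2.trans (mul_le_mul_of_nonneg_right hK (by positivity))⟩

lemma log_pow_le {x : ℝ} (hx : 1 ≤ x) (κ : ℕ) : log x ^ κ ≤ κ.factorial * x := by
  have := Real.pow_div_factorial_le_exp (log x) (log_nonneg hx) κ
  rw [exp_log (by linarith), div_le_iff₀ (by positivity)] at this
  linarith

lemma sm_old (K R κ : ℕ) (hK : 0 < K) : ∃ K' : ℝ, 0 < K' ∧ ∀ r ≤ R, ∀ D, 0 < D →
    Sm κ K' (K * D ^ r) D r := by
  refine ⟨K * ((R + 1) ^ κ * κ.factorial * (3 * K)), by positivity, fun r hr D hD =>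
    ⟨by positivity, ?_⟩⟩
  refine (mul_le_mul_of_nonneg_left (mn2_log K r κ D hK hD) (by positivity)).trans ?_
  have : ((r : ℝ) + 1) ^ κ ≤ (R + 1) ^ κ := by gcongr
  calc _ = (K * ((r + 1) ^ κ * κ.factorial * (3 * K)) : ℝ) * D ^ (r + 1) := by push_cast; ring
    _ ≤ _ := by gcongr

lemma sm_prim (m κ : ℕ) : ∃ K' : ℝ, 0 < K' ∧ ∀ r E I d : ℕ, 1 ≤ r → r ≤ m → 0 < E → 0 < I → 0 < d →
    I ^ m * d ≤ d ^ ((r + 1) * m) → Sm κ K' (E * I * 2 ^ (r + 1)) (E * d) r := by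
  refine ⟨2 ^ (m + 1) * ((m * (m + 1) + 1 : ℕ) ^ κ * (κ.factorial * (3 * 2 ^ (m + 1)))),
    by positivity, fun r E I d h1 h2 hE hI hd h => ⟨by positivity, ?_⟩⟩
  have hm : m ≠ 0 := by omega
  have E1 : (1 : ℝ) ≤ E := by exact_mod_cast hE
  have I1 : (1 : ℝ) ≤ I := by exact_mod_cast hI
  have d1 : (1 : ℝ) ≤ d := by exact_mod_cast hd
  obtain ⟨y, hy0, hy⟩ : ∃ y : ℝ, 0 ≤ y ∧ y ^ m = d :=
    ⟨(d : ℝ) ^ (m : ℝ)⁻¹, by positivity, rpow_inv_natCast_pow (by positivity) hm⟩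
  have y1 : 1 ≤ y := (one_le_pow_iff_of_nonneg hy0 hm).1 (hy ▸ d1)
  have a1 : (I : ℝ) * y ≤ d ^ (r + 1) := by
    refine (pow_le_pow_iff_left₀ (by positivity) (by positivity) hm).1 ?_
    rw [mul_pow, hy, ← pow_mul]
    exact_mod_cast h
  have a2 : (I : ℝ) ≤ y ^ (m * (m + 1)) := by
    rw [pow_mul, hy]
    exact ((le_mul_of_one_le_right (by positivity) y1).trans a1).trans
      (pow_le_pow_right₀ d1 (by omega))
  have a3 : (2 : ℝ) ^ (r + 1) ≤ 2 ^ (m + 1) := pow_le_pow_right₀ one_le_two (by omega)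
  have a4 : (1 : ℝ) ≤ 2 ^ (r + 1) := one_le_pow₀ one_le_two
  obtain ⟨X, hX⟩ : ∃ X : ℝ, X = 3 * 2 ^ (m + 1) * E * y := ⟨_, rfl⟩
  have a5 : (1 : ℝ) ≤ 3 * 2 ^ (m + 1) * E :=
    one_le_mul_of_one_le_of_one_le (by linarith) E1
  have X1 : y ≤ X := hX ▸ le_mul_of_one_le_left hy0 a5
  have X2 : 3 * 2 ^ (m + 1) * E ≤ X := hX ▸ le_mul_of_one_le_right (by positivity) y1
  have a6 : (3 : ℝ) * ((E * I * 2 ^ (r + 1) : ℕ) : ℝ) ≤ X ^ (m * (m + 1) + 1) :=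
    calc _ = (I : ℝ) * (3 * 2 ^ (r + 1) * E) := by push_cast; ring
      _ ≤ X ^ (m * (m + 1)) * X :=
        mul_le_mul (a2.trans (pow_le_pow_left₀ hy0 X1 _)) (le_trans (by gcongr) X2)
          (by positivity) (pow_nonneg (hy0.trans X1) _)
      _ = _ := (pow_succ _ _).symm
  have a7 : (1 : ℝ) ≤ ((E * I * 2 ^ (r + 1) : ℕ) : ℝ) := by
    exact_mod_cast (by positivity : 0 < E * I * 2 ^ (r + 1))
  have a8 : log (3 * ((E * I * 2 ^ (r + 1) : ℕ) : ℝ)) ^ κ ≤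
      (m * (m + 1) + 1 : ℕ) ^ κ * (κ.factorial * X) := by
    have := log_le_log (by linarith) a6
    rw [log_pow] at this
    refine (pow_le_pow_left₀ (log_nonneg (by linarith)) this κ).trans ?_
    rw [mul_pow]
    exact mul_le_mul_of_nonneg_left (log_pow_le (y1.trans X1) κ) (by positivity)
  have a9 : (E : ℝ) ^ 2 ≤ E ^ (r + 1) := pow_le_pow_right₀ E1 (by omega)
  refine (mul_le_mul_of_nonneg_left a8 (by positivity)).trans ?_
  calc _ = (2 : ℝ) ^ (r + 1) * ((m * (m + 1) + 1 : ℕ) ^ κ * (κ.factorial * (3 * 2 ^ (m + 1)))) *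
        (E ^ 2 * (I * y)) := by rw [hX, Nat.cast_mul, Nat.cast_mul, Nat.cast_pow, Nat.cast_ofNat]; ring
    _ ≤ 2 ^ (m + 1) * ((m * (m + 1) + 1 : ℕ) ^ κ * (κ.factorial * (3 * 2 ^ (m + 1)))) *
        (E ^ (r + 1) * d ^ (r + 1)) := by gcongr
    _ = _ := by rw [Nat.cast_mul E, mul_pow]

lemma sm_low (κ : ℕ) : ∃ K' : ℝ, 0 < K' ∧ ∀ E d : ℕ, 0 < E → 0 < d → log (3 * d) ^ κ ≤ E →
    Sm κ K' (E * (d * d) * 2 ^ (1 + 1)) (E * d) 1 := by
  refine ⟨4 * (2 ^ (κ - 1) * (κ.factorial * 12 + 2 ^ κ)), by positivity, fun E d hE hd h =>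
    ⟨by positivity, ?_⟩⟩
  have E1 : (1 : ℝ) ≤ E := by exact_mod_cast hE
  have d1 : (1 : ℝ) ≤ d := by exact_mod_cast hd
  have a1 : 0 ≤ log (12 * E : ℝ) := log_nonneg (by linarith)
  have a2 : 0 ≤ log (3 * d : ℝ) := log_nonneg (by linarith)
  have a3 : (1 : ℝ) ≤ ((E * (d * d) * 2 ^ (1 + 1) : ℕ) : ℝ) := by
    exact_mod_cast (by positivity : 0 < E * (d * d) * 2 ^ (1 + 1))
  have a4 : log (3 * ((E * (d * d) * 2 ^ (1 + 1) : ℕ) : ℝ)) ≤ log (12 * E) + 2 * log (3 * d) := by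
    rw [show (2 : ℝ) = (2 : ℕ) by norm_num, ← log_pow, ← log_mul (by positivity) (by positivity)]
    refine log_le_log (by linarith) ?_
    push_cast
    nlinarith [mul_pos (mul_pos (zero_lt_one.trans_le E1) (zero_lt_one.trans_le d1))
      (zero_lt_one.trans_le d1)]
  have a5 := (pow_le_pow_left₀ (log_nonneg (by linarith)) a4 κ).trans
    (add_pow_le a1 (by positivity) κ)
  have a6 := log_pow_le (show (1 : ℝ) ≤ 12 * E by linarith) κ
  have a7 : (2 * log (3 * d : ℝ)) ^ κ ≤ 2 ^ κ * E := by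
    rw [mul_pow]
    gcongr
  refine (mul_le_mul_of_nonneg_left (a5.trans (mul_le_mul_of_nonneg_left (add_le_add a6 a7)
    (by positivity))) (by positivity)).trans (le_of_eq ?_)
  push_cast
  ring

lemma pr_num {K C : ℝ} (hK : 0 < K) {r κ0 κ n0 e E E' D1 D J : ℕ} {h : ℝ}
    (hκ : κ0 ≤ κ) (hn : 0 < n0) (hE : 0 < E) (hE' : E ≤ E') (hD : e * E * D1 ≤ D) (hh : 0 ≤ h)
    (hs : Sm κ K J D1 r) (hle : C ≤ (e * h) ^ (r + 1) * ((E * J : ℕ) : ℝ) *
      log (3 * (n0 * ((E * J : ℕ) : ℝ))) ^ κ0) :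
    min 1 (C / (K * 2 ^ κ)) ≤ D * h * log (3 * (n0 * E')) ^ κ := by
  have hB : (0 : ℝ) < K * 2 ^ κ := by positivity
  have n1 : (1 : ℝ) ≤ n0 := by exact_mod_cast hn
  have E1 : (1 : ℝ) ≤ E := by exact_mod_cast hE
  have E2 : (E : ℝ) ≤ E' := by exact_mod_cast hE'
  have M1 : (1 : ℝ) ≤ J := by exact_mod_cast hs.1
  have hL : 1 ≤ log (3 * (n0 * E')) := mn2_one (one_le_mul_of_one_le_of_one_le n1 (E1.trans E2))
  have hM := mn2_one M1
  have hL' : 1 ≤ log (3 * (n0 * E')) ^ κ := one_le_pow₀ hL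
  rcases le_total 1 (D * h) with h1 | h1
  · exact (min_le_left _ _).trans (one_le_mul_of_one_le_of_one_le h1 hL')
  refine (min_le_right _ _).trans ?_
  rw [div_le_iff₀ hB]
  have h2 : (e : ℝ) * E * D1 ≤ D := by exact_mod_cast hD
  have h3 : (e * D1 * h : ℝ) ^ (r + 1) * E ≤ D * h := by
    refine (mul_le_mul_of_nonneg_left (le_self_pow₀ E1 (Nat.succ_ne_zero r))
      (by positivity)).trans ?_
    rw [← mul_pow, show (e * D1 * h * E : ℝ) = e * E * D1 * h by ring]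
    exact (pow_le_pow_left₀ (by positivity) (mul_le_mul_of_nonneg_right h2 hh) _).trans
      (pow_le_of_le_one (by positivity) h1 (Nat.succ_ne_zero r))
  have e0 : (3 : ℝ) * (n0 * ((E * J : ℕ) : ℝ)) = n0 * E * (3 * J) := by
    push_cast
    ring
  have h4 : log (3 * (n0 * ((E * J : ℕ) : ℝ))) ≤ 2 * log (3 * (n0 * E')) * log (3 * J) := by
    have h5 : log (n0 * E) ≤ log (3 * (n0 * E')) :=
      log_le_log (by positivity) (by nlinarith)
    rw [e0, log_mul (by positivity) (by positivity)]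
    nlinarith
  have h5 : 0 ≤ log (3 * (n0 * ((E * J : ℕ) : ℝ))) := by
    rw [e0]
    exact log_nonneg (one_le_mul_of_one_le_of_one_le (one_le_mul_of_one_le_of_one_le n1 E1)
      (by linarith))
  have h6 : log (3 * (n0 * ((E * J : ℕ) : ℝ))) ^ κ0 ≤
      2 ^ κ * log (3 * (n0 * E')) ^ κ * log (3 * J) ^ κ := by
    rw [← mul_pow, ← mul_pow]
    exact (pow_le_pow_left₀ h5 h4 κ0).trans (pow_le_pow_right₀ (by nlinarith) hκ)
  refine hle.trans ((mul_le_mul_of_nonneg_left h6 (by positivity)).trans ?_)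
  calc _ = (e * h) ^ (r + 1) * E * (2 ^ κ * log (3 * (n0 * E')) ^ κ) *
        ((J : ℝ) * log (3 * J) ^ κ) := by push_cast; ring
    _ ≤ (e * h) ^ (r + 1) * E * (2 ^ κ * log (3 * (n0 * E')) ^ κ) * (K * D1 ^ (r + 1)) :=
        mul_le_mul_of_nonneg_left hs.2 (by positivity)
    _ = (e * D1 * h : ℝ) ^ (r + 1) * E * log (3 * (n0 * E')) ^ κ * (K * 2 ^ κ) := by ring
    _ ≤ _ := mul_le_mul_of_nonneg_right (mul_le_mul_of_nonneg_right h3 (by positivity)) hB.le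

end Pool.Agent.Lib.MP_f61260_nt
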