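import Pool.Agent.Lib.MP_f61260_nt.Pr.Num

/-! Numerical inequalities with a power saving. -/

set_option autoImplicit false
set_option maxHeartbeats 400000

namespace Pool.Agent.Lib.MP_f61260_nt

open Real

lemma Sm.mono' {κ J D r : ℕ} {K K' g : ℝ} (h : Sm κ (K / g) J D r) (hg : 1 ≤ g) (hK : K ≤ K') :
    Sm κ (K' / g) J D r := h.mono (div_le_div_of_nonneg_right hK (by linarith))

lemma sp_sm (M κ : ℕ) (hM : 0 < M) {K : ℝ} (hK : 1 ≤ K) : ∃ K' : ℝ, 0 < K' ∧ ∀ (J D r : ℕ) (g : ℝ),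
    1 ≤ g → g ^ (2 * M) ≤ J → (J : ℝ) ^ (M + 1) ≤ K * D ^ ((r + 1) * M) → Sm κ (K' / g) J D r := by
  refine ⟨(2 * M : ℕ) ^ κ * (κ.factorial * 3) * K, by positivity, fun J D r g hg h1 h2 => ?_⟩
  have J1 : (1 : ℝ) ≤ J := (one_le_pow₀ hg).trans h1
  have hM2 : 2 * M ≠ 0 := by omega
  obtain ⟨y, hy0, hy⟩ : ∃ y : ℝ, 0 ≤ y ∧ y ^ (2 * M) = J :=
    ⟨(J : ℝ) ^ ((2 * M : ℕ) : ℝ)⁻¹, by positivity, rpow_inv_natCast_pow (by positivity) hM2⟩
  have y1 : g ≤ y := (pow_le_pow_iff_left₀ (by linarith) hy0 hM2).1 (hy ▸ h1)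
  have a1 : (J : ℝ) * y ^ 2 ≤ K * D ^ (r + 1) := by
    refine (pow_le_pow_iff_left₀ (by positivity) (by positivity) hM.ne').1 ?_
    rw [mul_pow, ← pow_mul, hy, ← pow_succ, mul_pow, ← pow_mul]
    exact h2.trans (mul_le_mul_of_nonneg_right (le_self_pow₀ hK hM.ne') (by positivity))
  have a2 : (3 : ℝ) * J ≤ (3 * y) ^ (2 * M) := by
    rw [mul_pow, hy]
    exact mul_le_mul_of_nonneg_right (le_self_pow₀ (by norm_num) hM2) (by positivity)
  have a3 : log (3 * (J : ℝ)) ^ κ ≤ (2 * M : ℕ) ^ κ * (κ.factorial * (3 * y)) := by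
    have := log_le_log (by linarith) a2
    rw [log_pow] at this
    refine (pow_le_pow_left₀ (log_nonneg (by linarith)) this κ).trans ?_
    rw [mul_pow]
    exact mul_le_mul_of_nonneg_left (log_pow_le (by linarith) κ) (by positivity)
  refine ⟨by exact_mod_cast (zero_lt_one.trans_le J1), ?_⟩
  rw [div_mul_eq_mul_div, le_div_iff₀ (by linarith)]
  calc _ ≤ (J : ℝ) * ((2 * M : ℕ) ^ κ * (κ.factorial * (3 * y))) * y := by gcongr
    _ = (2 * M : ℕ) ^ κ * (κ.factorial * 3) * (J * y ^ 2) := by ring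
    _ ≤ (2 * M : ℕ) ^ κ * (κ.factorial * 3) * (K * D ^ (r + 1)) := by gcongr
    _ = _ := by ring

lemma sp_old {K M r D : ℕ} (hr : r ≤ M) (hD : 0 < D) :
    ((K * D ^ r : ℕ) : ℝ) ^ (M + 1) ≤ K ^ (M + 1) * D ^ ((r + 1) * M) := by
  have D1 : (1 : ℝ) ≤ D := by exact_mod_cast hD
  rw [Nat.cast_mul, mul_pow, Nat.cast_pow, ← pow_mul]
  exact mul_le_mul_of_nonneg_left (pow_le_pow_right₀ D1 (by nlinarith)) (by positivity)

lemma sp_prim {m M r E I d : ℕ} (hM : (m + 1) * m ≤ M) (h1 : 1 ≤ r) (h2 : r ≤ m) (hE : 0 < E)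
    (hd : 0 < d) (h : I ^ m * d ≤ d ^ ((r + 1) * m)) :
    ((E * I * 2 ^ (r + 1) : ℕ) : ℝ) ^ (M + 1) ≤
      (2 ^ (m + 1)) ^ (M + 1) * (E * d : ℕ) ^ ((r + 1) * M) := by
  have hm : m ≠ 0 := by omega
  have a0 : (r + 1) * m ≤ M := (Nat.mul_le_mul_right m (by omega)).trans hM
  have a1 : I ^ (M + 1) ≤ d ^ ((r + 1) * M) := by
    refine (Nat.pow_le_pow_iff_left hm).1 (Nat.le_of_mul_le_mul_right (c := d ^ (M + 1)) ?_
      (by positivity))
    calc _ = (I ^ m * d) ^ (M + 1) := by rw [mul_pow, ← pow_mul, ← pow_mul, mul_comm m]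
      _ ≤ (d ^ ((r + 1) * m)) ^ (M + 1) := Nat.pow_le_pow_left h _
      _ ≤ _ := by
        rw [← pow_mul, ← pow_mul, ← pow_add]
        exact Nat.pow_le_pow_right hd (by nlinarith)
  have a2 : E ^ (M + 1) ≤ E ^ ((r + 1) * M) := Nat.pow_le_pow_right hE (by nlinarith)
  have a3 : (2 ^ (r + 1)) ^ (M + 1) ≤ (2 ^ (m + 1)) ^ (M + 1) :=
    Nat.pow_le_pow_left (Nat.pow_le_pow_right two_pos (by omega)) _
  have a4 : (E * I * 2 ^ (r + 1)) ^ (M + 1) ≤ (2 ^ (m + 1)) ^ (M + 1) * (E * d) ^ ((r + 1) * M) := by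
    rw [mul_pow, mul_pow, mul_pow, mul_comm]
    exact Nat.mul_le_mul a3 (Nat.mul_le_mul a2 a1)
  exact_mod_cast a4

lemma sp_low (κ : ℕ) : ∃ K' : ℝ, 0 < K' ∧ ∀ (E d N : ℕ) (g : ℝ), 0 < E → 0 < d → 1 ≤ g →
    g ^ 2 ≤ N → N * log (3 * d) ^ κ ≤ E →
    Sm κ (K' / g) (E * (d * d) * 2 ^ (1 + 1)) (E * d) 1 := by
  refine ⟨4 * (2 ^ (κ - 1) * ((2 * κ).factorial * 12 + 2 ^ κ)), by positivity,
    fun E d N g hE hd hg hN h => ⟨by positivity, ?_⟩⟩
  have E1 : (1 : ℝ) ≤ E := by exact_mod_cast hE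
  have d1 : (1 : ℝ) ≤ d := by exact_mod_cast hd
  have a1 : 0 ≤ log (12 * E : ℝ) := log_nonneg (by linarith)
  have a2 : 1 ≤ log (3 * d : ℝ) := mn2_one d1
  have a3 : (1 : ℝ) ≤ ((E * (d * d) * 2 ^ (1 + 1) : ℕ) : ℝ) := by
    exact_mod_cast (by positivity : 0 < E * (d * d) * 2 ^ (1 + 1))
  have a4 : log (3 * ((E * (d * d) * 2 ^ (1 + 1) : ℕ) : ℝ)) ≤ log (12 * E) + 2 * log (3 * d) := by
    rw [show (2 : ℝ) = (2 : ℕ) by norm_num, ← log_pow, ← log_mul (by positivity) (by positivity)]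
    refine log_le_log (by linarith) ?_
    push_cast
    nlinarith [mul_pos (mul_pos (zero_lt_one.trans_le E1) (zero_lt_one.trans_le d1))
      (zero_lt_one.trans_le d1)]
  have a5 := (pow_le_pow_left₀ (log_nonneg (by linarith)) a4 κ).trans
    (add_pow_le a1 (by positivity) κ)
  have b1 : (1 : ℝ) ≤ log (3 * d) ^ κ := one_le_pow₀ a2
  have b2 : g ^ 2 ≤ E := hN.trans ((le_mul_of_one_le_right (by positivity) b1).trans h)
  have b3 : (1 : ℝ) ≤ (2 * κ).factorial * 12 := by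
    have : (1 : ℝ) ≤ (2 * κ).factorial := by exact_mod_cast (2 * κ).factorial_pos
    linarith
  have a6 : log (12 * E : ℝ) ^ κ * g ≤ (2 * κ).factorial * 12 * E := by
    refine (pow_le_pow_iff_left₀ (by positivity) (by positivity) two_ne_zero).1 ?_
    rw [mul_pow, ← pow_mul, mul_comm κ]
    calc _ ≤ ((2 * κ).factorial * (12 * E) : ℝ) * E :=
          mul_le_mul (log_pow_le (by linarith) _) b2 (by positivity) (by positivity)
      _ = ((2 * κ).factorial * 12) * E ^ 2 := by ring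
      _ ≤ ((2 * κ).factorial * 12) ^ 2 * E ^ 2 :=
          mul_le_mul_of_nonneg_right (le_self_pow₀ b3 two_ne_zero) (by positivity)
      _ = _ := by ring
  have a7 : (2 * log (3 * d : ℝ)) ^ κ * g ≤ 2 ^ κ * E := by
    rw [mul_pow, mul_assoc]
    refine mul_le_mul_of_nonneg_left (le_trans ?_ h) (by positivity)
    rw [mul_comm]
    exact mul_le_mul_of_nonneg_right ((le_self_pow₀ hg two_ne_zero).trans hN) (by positivity)
  rw [div_mul_eq_mul_div, le_div_iff₀ (by linarith)]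
  calc _ ≤ ((E * (d * d) * 2 ^ (1 + 1) : ℕ) : ℝ) *
        (2 ^ (κ - 1) * (log (12 * E) ^ κ + (2 * log (3 * d)) ^ κ)) * g := by gcongr
    _ = ((E * (d * d) * 2 ^ (1 + 1) : ℕ) : ℝ) *
        (2 ^ (κ - 1) * (log (12 * E) ^ κ * g + (2 * log (3 * d)) ^ κ * g)) := by ring
    _ ≤ ((E * (d * d) * 2 ^ (1 + 1) : ℕ) : ℝ) *
        (2 ^ (κ - 1) * ((2 * κ).factorial * 12 * E + 2 ^ κ * E)) := by gcongr
    _ = _ := by push_cast; ring

lemma pr_num2 {K C y : ℝ} (hK : 0 < K) (hC : 0 < C) (hy : 1 ≤ y) {r R κ0 κ n0 e E E' D1 D J : ℕ}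
    {h : ℝ} (hr : r ≤ R) (hκ : κ0 ≤ κ) (hn : 0 < n0) (hE : 0 < E) (hE' : E ≤ E')
    (hD : e * E * D1 ≤ D) (hh : 0 ≤ h) (hs : Sm κ (K / y ^ (R + 1)) J D1 r)
    (hle : C ≤ (e * h) ^ (r + 1) * ((E * J : ℕ) : ℝ) * log (3 * (n0 * ((E * J : ℕ) : ℝ))) ^ κ0) :
    min 1 (C / (K * 2 ^ κ)) * y ≤ D * h * log (3 * (n0 * E')) ^ κ := by
  have hB : (0 : ℝ) < K * 2 ^ κ := by positivity
  have n1 : (1 : ℝ) ≤ n0 := by exact_mod_cast hn
  have E1 : (1 : ℝ) ≤ E := by exact_mod_cast hE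
  have E2 : (E : ℝ) ≤ E' := by exact_mod_cast hE'
  have M1 : (1 : ℝ) ≤ J := by exact_mod_cast hs.1
  have hL : 1 ≤ log (3 * (n0 * E')) := mn2_one (one_le_mul_of_one_le_of_one_le n1 (E1.trans E2))
  have hM := mn2_one M1
  have hL' : 1 ≤ log (3 * (n0 * E')) ^ κ := one_le_pow₀ hL
  have h2 : (e : ℝ) * E * D1 ≤ D := by exact_mod_cast hD
  have h3 : (e * D1 * h : ℝ) ^ (r + 1) * E ≤ (D * h) ^ (r + 1) := by
    refine (mul_le_mul_of_nonneg_left (le_self_pow₀ E1 (Nat.succ_ne_zero r))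
      (by positivity)).trans ?_
    rw [← mul_pow, show (e * D1 * h * E : ℝ) = e * E * D1 * h by ring]
    exact pow_le_pow_left₀ (by positivity) (mul_le_mul_of_nonneg_right h2 hh) _
  have e0 : (3 : ℝ) * (n0 * ((E * J : ℕ) : ℝ)) = n0 * E * (3 * J) := by
    push_cast
    ring
  have h4 : log (3 * (n0 * ((E * J : ℕ) : ℝ))) ≤ 2 * log (3 * (n0 * E')) * log (3 * J) := by
    have h5 : log (n0 * E) ≤ log (3 * (n0 * E')) :=
      log_le_log (by positivity) (by nlinarith)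
    rw [e0, log_mul (by positivity) (by positivity)]
    nlinarith
  have h5 : 0 ≤ log (3 * (n0 * ((E * J : ℕ) : ℝ))) := by
    rw [e0]
    exact log_nonneg (one_le_mul_of_one_le_of_one_le (one_le_mul_of_one_le_of_one_le n1 E1)
      (by linarith))
  have h6 : log (3 * (n0 * ((E * J : ℕ) : ℝ))) ^ κ0 ≤
      2 ^ κ * log (3 * (n0 * E')) ^ κ * log (3 * J) ^ κ := by
    rw [← mul_pow, ← mul_pow]
    exact (pow_le_pow_left₀ h5 h4 κ0).trans (pow_le_pow_right₀ (by nlinarith) hκ)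
  have y0 : 0 < y ^ (R + 1) := by positivity
  have h7 : C ≤ (D * h * log (3 * (n0 * E')) ^ κ) ^ (r + 1) * (K * 2 ^ κ) / y ^ (R + 1) := by
    refine hle.trans ((mul_le_mul_of_nonneg_left h6 (by positivity)).trans ?_)
    calc _ = (e * h) ^ (r + 1) * E * (2 ^ κ * log (3 * (n0 * E')) ^ κ) *
          ((J : ℝ) * log (3 * J) ^ κ) := by push_cast; ring
      _ ≤ (e * h) ^ (r + 1) * E * (2 ^ κ * log (3 * (n0 * E')) ^ κ) *
          (K / y ^ (R + 1) * D1 ^ (r + 1)) := mul_le_mul_of_nonneg_left hs.2 (by positivity)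
      _ = (e * D1 * h : ℝ) ^ (r + 1) * E * log (3 * (n0 * E')) ^ κ * (K * 2 ^ κ) / y ^ (R + 1) := by
          ring
      _ ≤ (D * h) ^ (r + 1) * (log (3 * (n0 * E')) ^ κ) ^ (r + 1) * (K * 2 ^ κ) / y ^ (R + 1) := by
          gcongr
          exact le_self_pow₀ hL' (Nat.succ_ne_zero r)
      _ = _ := by rw [← mul_pow]
  obtain ⟨c, hc⟩ : ∃ c, c = min 1 (C / (K * 2 ^ κ)) := ⟨_, rfl⟩
  rw [← hc]
  have c0 : 0 < c := hc ▸ lt_min one_pos (by positivity)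
  have c1 : c ≤ 1 := hc ▸ min_le_left _ _
  have c2 : c * (K * 2 ^ κ) ≤ C := (le_div_iff₀ hB).1 (hc ▸ min_le_right _ _)
  refine (pow_le_pow_iff_left₀ (by positivity) (by positivity) r.add_one_ne_zero).1 ?_
  rw [le_div_iff₀ y0] at h7
  refine le_of_mul_le_mul_right (le_trans ?_ h7) hB
  calc _ = c ^ (r + 1) * (K * 2 ^ κ) * y ^ (r + 1) := by rw [mul_pow]; ring
    _ ≤ c * (K * 2 ^ κ) * y ^ (R + 1) := by
        refine mul_le_mul (mul_le_mul_of_nonneg_right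
          (pow_le_of_le_one c0.le c1 (Nat.succ_ne_zero r)) hB.le)
          (pow_le_pow_right₀ hy (by omega)) (by positivity) (by positivity)
    _ ≤ _ := mul_le_mul_of_nonneg_right c2 y0.le

end Pool.Agent.Lib.MP_f61260_nt
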