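import Pool.Agent.Lib.MP_f61260_nt.Pr.Rad

/-! Independent conjugates in a primitive action. -/

set_option autoImplicit false
set_option maxHeartbeats 400000

namespace Pool.Agent.Lib.MP_f61260_nt

open MulAction

theorem two_rank {H Ω : Type} [Group H] [Finite H] [MulAction H Ω] {W : Set Ω} [Finite W]
    (h2 : ∀ x ∈ W, ∀ y ∈ W, ∀ x' ∈ W, ∀ y' ∈ W, x ≠ y → x' ≠ y' →
      ∃ g : H, (∀ w ∈ W, g • w ∈ W) ∧ g • x = x' ∧ g • y = y')
    (ψ : Ω → ℚ) {x0 y0 : Ω} (hx : x0 ∈ W) (hy : y0 ∈ W) (hψ : ψ x0 ≠ ψ y0)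
    (U : Submodule ℂ (W → ℂ))
    (hU : ∀ g : H, (∀ w ∈ W, g • w ∈ W) → (fun w : W => (ψ (g • (w : Ω)) : ℂ)) ∈ U) :
    W.ncard ≤ Module.finrank ℂ U + 1 := by
  classical
  have := Fintype.ofFinite H
  have := Fintype.ofFinite W
  have hne : x0 ≠ y0 := fun e => hψ (e ▸ rfl)
  let T : Finset H := Finset.univ.filter fun g => ∀ w ∈ W, g • w ∈ W
  have hT : ∀ g, g ∈ T ↔ ∀ w ∈ W, g • w ∈ W := fun g => by simp [T]
  let K : Ω → Ω → ℚ := fun x y => ∑ h ∈ T, ψ (h • x) * ψ (h • y)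
  have k1 : ∀ g ∈ T, ∀ x y, K (g • x) (g • y) = K x y := fun g hg x y => by
    have e : T.image (· * g) = T := Finset.eq_of_subset_of_card_le (by
      intro z hz
      obtain ⟨h, hh, rfl⟩ := Finset.mem_image.1 hz
      exact (hT _).2 fun w hw => by
        rw [mul_smul]
        exact (hT h).1 hh _ ((hT g).1 hg w hw))
      (Finset.card_image_of_injective _ (mul_left_injective g)).ge
    change ∑ h ∈ T, _ = ∑ h ∈ T, _
    conv_rhs => rw [← e, Finset.sum_image fun _ _ _ _ h => mul_left_injective g h]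
    simp only [mul_smul]
  have k2 : ∀ x ∈ W, ∀ y ∈ W, x ≠ y → K x y = K x0 y0 := fun x h1 y h3 h => by
    obtain ⟨g, g1, rfl, rfl⟩ := h2 x0 hx y0 hy x h1 y h3 hne h
    exact k1 g ((hT g).2 g1) _ _
  have k3 : ∀ x ∈ W, K x x = K x0 x0 := fun x h1 => by
    by_cases e : x = x0
    · rw [e]
    · obtain ⟨g, g1, g2, -⟩ := h2 x0 hx y0 hy x h1 x0 hx hne e
      rw [← g2]
      exact k1 g ((hT g).2 g1) _ _
  have k4 : K x0 x0 - K x0 y0 ≠ 0 := by
    have e1 : 0 < ∑ h ∈ T, (ψ (h • x0) - ψ (h • y0)) ^ 2 :=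
      Finset.sum_pos' (fun _ _ => sq_nonneg _) ⟨1, (hT 1).2 fun w hw => by rwa [one_smul], by
        rw [one_smul, one_smul]
        exact sq_pos_of_ne_zero (sub_ne_zero.2 hψ)⟩
    have e2 : ∑ h ∈ T, (ψ (h • x0) - ψ (h • y0)) ^ 2 = K x0 x0 - 2 * K x0 y0 + K y0 y0 := by
      simp only [K, Finset.mul_sum, ← Finset.sum_sub_distrib, ← Finset.sum_add_distrib]
      exact Finset.sum_congr rfl fun _ _ => by ring
    rw [e2, k3 y0 hy] at e1
    exact fun e => by linarith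
  have k5 : ∀ y : Ω, (fun x : W => (K x y : ℂ)) ∈ U := fun y => by
    have e : (fun x : W => (K x y : ℂ)) =
        ∑ h ∈ T, (ψ (h • y) : ℂ) • fun x : W => (ψ (h • (x : Ω)) : ℂ) := by
      funext x
      simp only [K, Finset.sum_apply, Pi.smul_apply, smul_eq_mul]
      push_cast
      exact Finset.sum_congr rfl fun _ _ => mul_comm _ _
    rw [e]
    exact U.sum_mem fun h hh => U.smul_mem _ (hU h ((hT h).1 hh))
  have k6 : U ⊔ Submodule.span ℂ {(1 : W → ℂ)} = ⊤ := by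
    rw [eq_top_iff, ← (Pi.basisFun ℂ W).span_eq, Submodule.span_le]
    rintro _ ⟨y, rfl⟩
    have c0 : ((K x0 x0 - K x0 y0 : ℚ) : ℂ) ≠ 0 := by exact_mod_cast k4
    have e : (Pi.basisFun ℂ W) y = ((K x0 x0 - K x0 y0 : ℚ) : ℂ)⁻¹ •
        ((fun x : W => (K x y : ℂ)) - (K x0 y0 : ℂ) • (1 : W → ℂ)) := by
      funext x
      rw [Pi.basisFun_apply, Pi.smul_apply, Pi.sub_apply, Pi.smul_apply, Pi.one_apply, smul_eq_mul,
        smul_eq_mul, mul_one]
      by_cases e : x = y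
      · rw [e, Pi.single_eq_same, k3 _ y.2, ← Rat.cast_sub, inv_mul_cancel₀ c0]
      · rw [Pi.single_eq_of_ne e, k2 _ x.2 _ y.2 fun h => e (Subtype.ext h), sub_self, mul_zero]
    rw [e]
    exact Submodule.smul_mem _ _ (sub_mem (Submodule.mem_sup_left (k5 y))
      (Submodule.smul_mem _ _ (Submodule.mem_sup_right (Submodule.mem_span_singleton_self _))))
  have k7 := Submodule.finrank_add_le_finrank_add_finrank U (Submodule.span ℂ {(1 : W → ℂ)})
  have : Nonempty W := ⟨⟨x0, hx⟩⟩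
  rwa [k6, finrank_top, finrank_span_singleton one_ne_zero, Module.finrank_fintype_fun_eq_card,
    ← Nat.card_eq_fintype_card, Nat.card_coe_set_eq] at k7

variable {G M : Type} [Group G] [AddCommGroup M] [IsAddTorsionFree M] [DistribMulAction G M]

theorem prim_conj {a : M} {D : ℕ} (ha : a ≠ 0) (hD : IdxLe ⊤ (stabilizer G a) D)
    {H Ω : Type} [Group H] [Finite H] [MulAction H Ω] [Finite Ω] (φ : G →* H)
    (hφ : Function.Surjective φ) (o : Ω) (hB : ∀ g, φ g • o = o → g3L (g • a) a)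
    (hm : ∃ g : G, ¬ g3L (g • a) a) (hP : IsPreprimitive H Ω) {r : ℕ} {W : Set Ω}
    (hW : r = 1 ∧ W.ncard = 2 ∨ r ^ 2 + 1 < W.ncard ∧
      ∀ x ∈ W, ∀ y ∈ W, ∀ x' ∈ W, ∀ y' ∈ W, x ≠ y → x' ≠ y' →
        ∃ g : H, (∀ w ∈ W, g • w ∈ W) ∧ g • x = x' ∧ g • y = y') :
    ∃ τ : Fin (r + 1) → G, LinearIndependent ℤ (fun i => τ i • a) ∧ ∀ i, φ (τ i) • o ∈ W := by
  classical
  obtain ⟨g0, hg0⟩ := hm
  have hs : ∀ w : Ω, ∃ g, φ g • o = w := fun w => by
    obtain ⟨h, rfl⟩ := exists_smul_eq H o w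
    obtain ⟨g, rfl⟩ := hφ h
    exact ⟨g, rfl⟩
  choose s hs using hs
  have k1 : ∀ g g', φ g • o = φ g' • o → g3L (g • a) (g' • a) := fun g g' e => by
    have := (hB (g'⁻¹ * g) (by rw [map_mul, mul_smul, e, map_inv, inv_smul_smul])).smul g'
    rwa [mul_smul, smul_inv_smul] at this
  let L : Subgroup G :=
    { carrier := {g | g3L (g • a) a}
      one_mem' := by
        change g3L _ _
        rw [one_smul]
        exact g3L.refl _
      mul_mem' := fun {x y} hx hy => by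
        change g3L _ _
        rw [mul_smul]
        exact (g3L.smul hy x).trans hx
      inv_mem' := fun {x} hx => by
        have := g3L.smul hx x⁻¹
        rw [inv_smul_smul] at this
        exact this.symm }
  have : Nontrivial Ω := ⟨⟨_, _, fun e => hg0 (hB g0 e)⟩⟩
  have k2 : L.map φ = stabilizer H o := by
    refine (((IsPreprimitive.isCoatom_stabilizer_of_isPreprimitive H o).le_iff (x := L.map φ)).1
      fun h hh => ?_).resolve_left fun e => ?_
    · obtain ⟨g, rfl⟩ := hφ h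
      exact ⟨g, hB g hh, rfl⟩
    · obtain ⟨g, g1, g2⟩ : φ g0 ∈ L.map φ := e ▸ Subgroup.mem_top _
      exact hg0 ((k1 g0 g (by rw [g2])).trans g1)
  have k3 : ∀ x y, g3L (s x • a) (s y • a) → x = y := fun x y e => by
    have e1 : (s y)⁻¹ * s x ∈ L := by
      have := e.smul (s y)⁻¹
      rwa [inv_smul_smul, ← mul_smul] at this
    have e2 : φ ((s y)⁻¹ * s x) ∈ stabilizer H o := k2 ▸ Subgroup.mem_map_of_mem φ e1
    rwa [mem_stabilizer_iff, map_mul, mul_smul, hs, map_inv, inv_smul_eq_iff, hs] at e2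
  rcases hW with ⟨rfl, hW⟩ | ⟨h1, h2⟩
  · obtain ⟨x, y, hxy, rfl⟩ := Set.ncard_eq_two.1 hW
    obtain ⟨R, hR, hR2⟩ := g3_fin hD
    have := pair_of_move (a := s x • a) (g := s y * (s x)⁻¹) ((smul_ne_zero_iff_ne _).2 ha)
      (g3_orb ⊤ _ R fun σ _ => by rw [← mul_smul]; exact hR2 _) (by
        rw [mul_smul, inv_smul_smul]
        exact fun e => hxy (k3 _ _ e).symm)
    refine ⟨![s x, s y], ?_, Fin.forall_fin_two.2 ⟨by simp [hs], by simp [hs]⟩⟩
    have e : (fun i => (![s x, s y] : Fin 2 → G) i • a) =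
        fun i => (![1, s y * (s x)⁻¹] : Fin 2 → G) i • s x • a := by
      funext i
      fin_cases i <;> simp [mul_smul]
    exact e ▸ this
  obtain ⟨x0, y0, hx, hy, hne⟩ := (Set.one_lt_ncard_iff W.toFinite).1 (by omega)
  obtain ⟨f, hf⟩ : ∃ f : M →+ ℚ, f (s x0 • a) ^ 2 ≠ f (s y0 • a) ^ 2 := by
    by_contra h
    push Not at h
    exact hne (k3 _ _ (sq_sep h))
  obtain ⟨w, hw⟩ := li_of_rank (fun w : W => s w • a) r fun U hU => by
    have := two_rank h2 (fun w => f (s w • a) ^ 2) hx hy hf U fun h hh => by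
      obtain ⟨g, rfl⟩ := hφ h
      have e : (fun w : W => ((f (s (φ g • (w : Ω)) • a) ^ 2 : ℚ) : ℂ)) = fun w : W =>
          (((f.comp (DistribSMul.toAddMonoidHom M g)) (s w • a) ^ 2 : ℚ) : ℂ) := by
        funext w
        have := (k1 (s (φ g • (w : Ω))) (g * s w) (by rw [hs, map_mul, mul_smul, hs])).sq f
        rw [this, mul_smul]
        rfl
      exact e ▸ hU _
    omega
  exact ⟨fun i => s (w i), hw, fun i => by rw [hs]; exact (w i).2⟩

end Pool.Agent.Lib.MP_f61260_nt
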