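import Pool.Agent.Lib.MP_f61260_nt.Sl.G4

/-! Independent conjugates from a solvable normal subgroup. -/

set_option autoImplicit false
set_option maxHeartbeats 400000

namespace Pool.Agent.Lib.MP_f61260_nt

open MulAction

theorem ex_elem_in {Q : Type} [Group Q] [Finite Q] {P : Subgroup Q} (hnorm : P.Normal)
    (h1 : P ≠ ⊥) (hc : ∀ x ∈ P, ∀ y ∈ P, Commute x y) :
    ∃ (p : ℕ) (N : Subgroup Q), p.Prime ∧ N.Normal ∧ N ≠ ⊥ ∧ (∀ x ∈ N, ∀ y ∈ N, x * y = y * x) ∧
      ∀ x ∈ N, x ^ p = 1 := by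
  obtain ⟨⟨x, hx⟩, hx1⟩ := Subgroup.ne_bot_iff_exists_ne_one.1 h1
  have hx2 : x ≠ 1 := fun h => hx1 (Subtype.ext h)
  obtain ⟨p, hp, k, hk⟩ := Nat.exists_prime_and_dvd (n := orderOf x) (by simpa using hx2)
  have hk0 : 0 < k := Nat.pos_of_mul_pos_left (hk ▸ orderOf_pos x)
  let N : Subgroup Q :=
    { carrier := {y | y ∈ P ∧ y ^ p = 1}
      one_mem' := ⟨Subgroup.one_mem _, one_pow p⟩
      mul_mem' := fun {a b} ha hb => ⟨Subgroup.mul_mem _ ha.1 hb.1, by
        rw [(hc a ha.1 b hb.1).mul_pow, ha.2, hb.2, one_mul]⟩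
      inv_mem' := fun {a} ha => ⟨Subgroup.inv_mem _ ha.1, by rw [inv_pow, ha.2, inv_one]⟩ }
  refine ⟨p, N, hp, ⟨fun y hy g => ⟨hnorm.conj_mem y hy.1 g, by
    rw [conj_pow, hy.2, mul_one, mul_inv_cancel]⟩⟩, fun hN => ?_,
    fun a ha b hb => hc a ha.1 b hb.1, fun a ha => ha.2⟩
  have h3 : x ^ k ∈ N := ⟨Subgroup.pow_mem _ hx k, by
    rw [← pow_mul, mul_comm, ← hk, pow_orderOf_eq_one]⟩
  rw [hN, Subgroup.mem_bot] at h3
  have h4 := Nat.le_of_dvd hk0 (orderOf_dvd_of_pow_eq_one h3)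
  have h5 := hp.two_le
  rw [hk] at h4
  nlinarith

variable {G M : Type} [Group G] [AddCommGroup M] [IsAddTorsionFree M] [DistribMulAction G M]

theorem rad_orbit {a : M} {D : ℕ} (ha : a ≠ 0) (hD : IdxLe ⊤ (stabilizer G a) D)
    (Ns : ℕ → Subgroup G) (l : ℕ) (hn : ∀ i, (Ns i).Normal)
    (hcm : ∀ i, ⁅Ns i, Ns i⁆ ≤ Ns (i + 1)) (hl : ∀ g ∈ Ns l, g3L (g • a) a)
    (h0 : ∃ g ∈ Ns 0, ¬ g3L (g • a) a) :
    ∃ r ≤ 18, ∃ τ : Fin (r + 1) → G, LinearIndependent ℤ (fun i => τ i • a) ∧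
      IdxLe ⊤ (⨅ i, stabilizer G (τ i • a)) ((2 * solbB + 2 ^ 19) * D ^ r) := by
  classical
  let K : Subgroup G :=
    { carrier := {g | ∀ h : G, g3L (g • h • a) (h • a)}
      one_mem' := fun h => by rw [one_smul]; exact g3L.refl _
      mul_mem' := fun {x y} hx hy h => by
        rw [mul_smul]
        exact ((hy h).smul x).trans (hx h)
      inv_mem' := fun {x} hx h => by
        have := (hx h).smul x⁻¹
        rw [inv_smul_smul] at this
        exact this.symm }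
  have hK : ∀ g, g ∈ K ↔ ∀ h : G, g3L (g • h • a) (h • a) := fun _ => Iff.rfl
  have hKn : K.Normal := ⟨fun x hx g => (hK _).2 fun h => by
    have := ((hK x).1 hx (g⁻¹ * h)).smul g
    rwa [mul_smul g⁻¹, smul_inv_smul, ← mul_smul g x, ← mul_smul (g * x)] at this⟩
  have hle : ∀ H : Subgroup G, H.Normal → (∀ g ∈ H, g3L (g • a) a) → H ≤ K := fun H hH h x hx =>
    (hK x).2 fun g => by
      have := (h _ (hH.conj_mem x hx g⁻¹)).smul g
      rwa [inv_inv, mul_smul, mul_smul, smul_inv_smul] at this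
  have hfi : (stabilizer G a).FiniteIndex := ⟨g3_index hD⟩
  have hfK : K.FiniteIndex := Subgroup.finiteIndex_of_le
    (hle _ inferInstance fun g hg => Or.inl ((stabilizer G a).normalCore_le hg))
  have hπ : ∀ g g' : G, (g : G ⧸ K) = g' → ∀ h : G, g3L (g • h • a) (g' • h • a) :=
    fun g g' e h => by
      have := ((hK _).1 (QuotientGroup.eq.1 e) h).smul g
      rw [mul_smul, smul_inv_smul] at this
      exact this.symm
  have hex : ∃ i, Ns i ≤ K := ⟨l, hle _ (hn l) hl⟩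
  have hf : Nat.find hex ≠ 0 := fun h => by
    obtain ⟨g, g1, g2⟩ := h0
    have := Nat.find_spec hex
    rw [h] at this
    exact g2 (by simpa using (hK g).1 (this g1) 1)
  obtain ⟨n, hn'⟩ := Nat.exists_eq_succ_of_ne_zero hf
  have h1 : ¬ Ns n ≤ K := Nat.find_min hex (by omega)
  have h2 : ⁅Ns n, Ns n⁆ ≤ K := (hcm n).trans (by
    have := Nat.find_spec hex
    rwa [hn'] at this)
  obtain ⟨p, N, hp, hN, hN0, hc, hpw⟩ := ex_elem_in (P := (Ns n).map (QuotientGroup.mk' K))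
    ((hn n).map _ (QuotientGroup.mk'_surjective K))
    (by rwa [Ne, Subgroup.map_eq_bot_iff, QuotientGroup.ker_mk']) (by
      rintro _ ⟨x, hx, rfl⟩ _ ⟨y, hy, rfl⟩
      rw [← commutatorElement_eq_one_iff_commute, ← map_commutatorElement, QuotientGroup.mk'_apply,
        QuotientGroup.eq_one_iff]
      exact h2 (Subgroup.commutator_mem_commutator hx hy))
  let : CommGroup N :=
    { (inferInstance : Group N) with mul_comm := fun x y => Subtype.ext (hc x x.2 y y.2) }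
  have := Fintype.ofFinite (Additive N)
  have h2 : ∀ (σ : G) (n : Additive N), ∃ m : Additive N, ∀ h : G,
      g3L (σ • (n.toMul : G ⧸ K).out • h • a) ((m.toMul : G ⧸ K).out • σ • h • a) := fun σ n =>
    ⟨Additive.ofMul ⟨_, hN.conj_mem _ n.toMul.2 σ⟩, fun h => by
      rw [← mul_smul σ, ← mul_smul _ σ]
      exact hπ _ _ (by simp) h⟩
  refine g3_main ha hD (A := Additive N) hp (fun x => Subtype.ext (hpw _ x.toMul.2))
    (fun n => (n.toMul : G ⧸ K).out) (fun n n' h => ?_) h2 ?_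
  · rw [← mul_smul (Quotient.out (n.toMul : G ⧸ K))]
    exact hπ _ _ (by simp) h
  · by_contra hcon
    push Not at hcon
    refine hN0 ((Subgroup.eq_bot_iff_forall N).2 fun x hx => ?_)
    rw [← QuotientGroup.out_eq' x, QuotientGroup.eq_one_iff, hK]
    intro h
    obtain ⟨m, hm⟩ := h2 h⁻¹ (Additive.ofMul ⟨x, hx⟩)
    have e := hm h
    rw [inv_smul_smul] at e
    have e2 := (e.trans (hcon m)).smul h
    rwa [smul_inv_smul] at e2

theorem pair_of_move {a : M} {D : ℕ} (ha : a ≠ 0) (hD : IdxLe ⊤ (stabilizer G a) D) {g : G}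
    (hg : ¬ g3L (g • a) a) : LinearIndependent ℤ fun i => (![1, g] : Fin 2 → G) i • a := by
  obtain ⟨t, ht, -, ht2⟩ := Subgroup.exists_pow_mem_of_index_ne_zero (g3_index hD) g
  have e : (fun i => (![1, g] : Fin 2 → G) i • a) = ![a, g • a] := by
    funext i
    fin_cases i <;> simp
  rw [e]
  exact pair_li ha ht ht2 (fun h => hg (Or.inl h)) fun h => hg (Or.inr h)

theorem rad_orbit2 {a : M} {D : ℕ} (ha : a ≠ 0) (hD : IdxLe ⊤ (stabilizer G a) D)
    {H : Type} [Group H] (φ : G →* H) {N : Subgroup H} (hN : N.Normal) (hs : Group.IsSolvable N)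
    (hk : ∀ g, φ g = 1 → g3L (g • a) a) (h0 : ∃ g, φ g ∈ N ∧ ¬ g3L (g • a) a) :
    ∃ r, 1 ≤ r ∧ r ≤ 18 ∧ ∃ τ : Fin (r + 1) → G, LinearIndependent ℤ (fun i => τ i • a) ∧
      IdxLe ⊤ (⨅ i, stabilizer G (τ i • a)) ((2 * solbB + 2 ^ 19) ^ 2 * D ^ r) := by
  obtain ⟨l, hl⟩ := hs
  have hc : ∀ i, (derivedSeries N (i + 1)).map N.subtype =
      ⁅(derivedSeries N i).map N.subtype, (derivedSeries N i).map N.subtype⁆ := fun i => by
    rw [derivedSeries_succ, Subgroup.map_commutator]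
  have hn : ∀ i, ((derivedSeries N i).map N.subtype).Normal := fun i => by
    induction i with
    | zero => rwa [derivedSeries_zero, ← MonoidHom.range_eq_map, Subgroup.range_subtype]
    | succ i ih => rw [hc]; infer_instance
  obtain ⟨g, hg0, hg⟩ := h0
  obtain ⟨r, hr, τ, h1, h2⟩ := rad_orbit ha hD
    (fun i => ((derivedSeries N i).map N.subtype).comap φ) l (fun i => (hn i).comap φ)
    (fun i => Subgroup.commutator_le.2 fun x hx y hy => by
      rw [Subgroup.mem_comap, map_commutatorElement, hc]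
      exact Subgroup.commutator_mem_commutator hx hy)
    (fun g hg => hk g (by simpa [hl] using hg)) ⟨g, ⟨⟨_, hg0⟩, Subgroup.mem_top _, rfl⟩, hg⟩
  obtain ⟨C, hC⟩ : ∃ C, C = 2 * solbB + 2 ^ 19 := ⟨_, rfl⟩
  have hC0 : 0 < C := hC ▸ Nat.add_pos_right _ (by positivity)
  rw [← hC] at h2 ⊢
  rcases Nat.eq_zero_or_pos r with rfl | hr0
  swap
  · exact ⟨r, hr0, hr, τ, h1, h2.mono (Nat.mul_le_mul_right _ (Nat.le_self_pow two_ne_zero C))⟩
  have hD0 : 0 < D := let ⟨T, hT⟩ := hD; T.card_pos.trans_le hT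
  obtain ⟨R, hR, hR2⟩ := g3_fin (a := τ 0 • a)
    (h2.restrict le_rfl (inf_le_right.trans (iInf_le (fun i => stabilizer G (τ i • a)) 0)))
  rw [pow_zero, mul_one] at hR
  have h3 : ∀ σ : G, IdxLe ⊤ (stabilizer G (σ • a)) C := fun σ =>
    (g3_orb ⊤ _ R fun x _ => by simpa [mul_smul] using hR2 (x * σ * (τ 0)⁻¹)).mono hR
  refine ⟨1, le_rfl, by omega, ![1, g], pair_of_move ha hD hg,
    (IdxLe.iInf fun i => h3 _).mono ?_⟩
  rw [Fin.prod_univ_two, pow_one, sq]
  exact Nat.le_mul_of_pos_right _ hD0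

end Pool.Agent.Lib.MP_f61260_nt
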