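import Pool.Agent.Lib.MP_f61260_nt.Sl.Mn3
import Pool.Agent.Lib.MP_f61260_nt.Pr.Defs
import Pool.Agent.Lib.MP_f61260_nt.Pr.Prim
import Pool.Agent.Lib.MP_f61260_nt.Pr.Num2

/-! The height bound along a tower with tame steps. -/

set_option autoImplicit false
set_option maxHeartbeats 400000

namespace Pool.Agent.Lib.MP_f61260_nt

open Real MulAction

/-- a step of a tower whose permutation group is tame -/
def PStep (μ : ℕ) (A B : Subgroup GA) (d : ℕ) : Prop :=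
  ∃ (H Ω : Type) (_ : Group H) (_ : Finite H) (_ : MulAction H Ω) (_ : Finite Ω) (φ : A →* H)
    (o : Ω), Function.Surjective φ ∧ (∀ g : A, φ g • o = o → (g : GA) ∈ B) ∧ Nat.card Ω = d ∧
      Tame μ H Ω

lemma idx_hom {A : Subgroup GA} {H : Type} [Group H] [Finite H] (φ : A →* H) (S : Subgroup H) :
    IdxLe A ((S.comap φ).map A.subtype) S.index := by
  classical
  have := Fintype.ofFinite (H ⧸ S)
  refine conj_back (A := S.comap φ) (IdxLe.mono (exists_trans (Finset.univ : Finset (H ⧸ S))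
    (fun g => (φ g : H ⧸ S)) (fun _ _ => Finset.mem_univ _) fun g _ g' _ e => ?_) ?_)
    fun u hu => ⟨u, hu, rfl⟩
  · rw [Subgroup.mem_comap, map_mul, map_inv]
    exact QuotientGroup.eq.1 e
  · rw [Finset.card_univ, ← Nat.card_eq_fintype_card]
    rfl

lemma conj_in {𝒢 : Type} [Group 𝒢] {A B : Subgroup 𝒢} {H Ω : Type} [Group H] [MulAction H Ω]
    {φ : A →* H} {o : Ω} (ho : ∀ g : A, φ g • o = o → (g : 𝒢) ∈ B) {S : Subgroup H} (x : A)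
    (h : ∀ s ∈ S, s • φ x • o = φ x • o) :
    ∀ w ∈ (S.comap φ).map A.subtype, (x : 𝒢)⁻¹ * w * x ∈ B := by
  rintro _ ⟨w, hw, rfl⟩
  refine ho (x⁻¹ * w * x) ?_
  rw [map_mul, map_mul, mul_smul, mul_smul, h _ hw, map_inv, inv_smul_smul]

lemma gstep_of {A B : Subgroup GA} {H Ω : Type} [Group H] [Finite H] [MulAction H Ω] (φ : A →* H)
    (o : Ω) (ho : ∀ g : A, φ g • o = o → (g : GA) ∈ B) {μ d : ℕ} (h : Nat.card H ≤ d ^ μ) :
    GStep μ A B d := by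
  refine Or.inr ⟨((⊥ : Subgroup H).comap φ).map A.subtype, Subgroup.map_subtype_le _,
    (idx_hom φ ⊥).mono (Subgroup.index_bot.trans_le h), fun g hg => conj_in ho ⟨g, hg⟩ ?_⟩
  intro s hs
  rw [Subgroup.mem_bot.1 hs, one_smul]

theorem Ctx.step_V {ι : Type} [Fintype ι] {c : Ctx ι} {U A B V : Subgroup GA} {γ : Qb}
    {E D I r : ℕ} (hU : U ≤ c.G0) (hA : A ≤ U) (hB : B ≤ A) (hγ : γ ≠ 0) (h1 : IdxLe U A E)
    (h3 : IdxLe B (St ℚ γ) D) (hdB : c.Deg B γ) (hV : V ≤ A) (hI : IdxLe A V I)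
    {τ : Fin (r + 1) → GA} (hτ : ∀ i, ∀ w ∈ V, (τ i)⁻¹ * w * τ i ∈ B) :
    ∃ (ξ : Qb) (e : ℕ), Tor ξ ∧ 0 < e ∧ e ≤ D ∧
      IdxLe U (⨅ i, St ℚ (τ i (ξ * γ ^ e))) (E * I * 2 ^ (r + 1)) := by
  have hBG := hB.trans (hA.trans hU)
  obtain ⟨e, D2, ζ, he, hD2, heD, hζ, -, k4⟩ := exists_rig hγ h3
  have hζ' := Ctx.dv_tor (c := c) hζ
  have k5 := Ctx.deg_two hBG (mul_ne_zero hζ'.ne (pow_ne_zero e hγ)) k4
    ((Ctx.deg_pow hBG hγ hζ' he).2 hdB)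
  refine ⟨ζ, e, hζ, he, (Nat.le_mul_of_pos_right e hD2).trans heD,
    (h1.trans' (hI.trans' (IdxLe.iInf fun i => idx_conj k5 (hτ i)) hV) hA).mono ?_⟩
  rw [Finset.prod_const, Finset.card_univ, Fintype.card_fin, mul_assoc]

theorem Ctx.step_pr (μ : ℕ) : ∃ R M : ℕ, 0 < M ∧ ∀ κ : ℕ, ∃ K : ℝ, 0 < K ∧ ∀ (ι : Type) [Fintype ι]
    (c : Ctx ι) (U A B : Subgroup GA) (γ : Qb) (E d D N : ℕ) (y : ℝ), 1 ≤ y → y ^ (2 * M) ≤ N →
    U ≤ c.G0 → A ≤ U → B ≤ A → γ ≠ 0 →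
    IdxLe U A E → IdxLe A B d → IdxLe B (St ℚ γ) D → (PStep μ A B d ∨ N * log (3 * d) ^ κ ≤ E) →
    c.Deg B γ → ¬ c.Deg A γ →
    ∃ r ≤ R, ∃ (ξ : Qb) (e D1 J : ℕ) (τ : Fin (r + 1) → GA), Tor ξ ∧ 0 < e ∧
      e * D1 ≤ E * d * D ∧ (∀ i, τ i ∈ U) ∧ (c.Ind fun i => τ i γ) ∧
      IdxLe U (⨅ i, St ℚ (τ i (ξ * γ ^ e))) J ∧ (N ≤ J → Sm κ (K / y) J D1 r) := by
  classical
  obtain ⟨R0, K0, H0⟩ := Ctx.step_conj μ
  obtain ⟨C, hC⟩ : ∃ C, C = (2 * solbB + 2 ^ 19) ^ 2 := ⟨_, rfl⟩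
  obtain ⟨M0, hM0⟩ : ∃ M0, M0 = R0 + 18 + μ + (μ + 1) * μ := ⟨_, rfl⟩
  have hM : 0 < M0 := by omega
  refine ⟨R0 + 18 + μ, M0, hM, fun κ => ?_⟩
  obtain ⟨K1, p1, q1'⟩ := sp_sm M0 κ hM (K := ((K0 + C + 1 : ℕ) : ℝ) ^ (M0 + 1))
    (one_le_pow₀ (by exact_mod_cast (by omega : 1 ≤ K0 + C + 1)))
  obtain ⟨K2, p2, q2⟩ := sp_sm M0 κ hM (K := (2 ^ (μ + 1)) ^ (M0 + 1))
    (one_le_pow₀ (one_le_pow₀ one_le_two))
  obtain ⟨K3, p3, q3⟩ := sp_low κ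
  refine ⟨K1 + K2 + K3, by positivity,
    fun ι _ c U A B γ E d D N0 y hy hyN hU hA hB hγ h1 h2 h3 hs hdB hdA => ?_⟩
  have q1 : ∀ r ≤ R0 + 18 + μ, ∀ D1, 0 < D1 → N0 ≤ (K0 + C + 1) * D1 ^ r →
      Sm κ ((K1 + K2 + K3) / y) ((K0 + C + 1) * D1 ^ r) D1 r := fun r hr D1 hD1 h =>
    (q1' _ D1 r y hy (hyN.trans (by exact_mod_cast h)) (sp_old (by omega) hD1)).mono' hy
      (by linarith)
  have hAG := hA.trans hU
  have hBG := hB.trans hAG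
  have hE : 0 < E := let ⟨T, hT⟩ := h1; T.card_pos.trans_le hT
  have hd : 0 < d := let ⟨T, hT⟩ := h2; T.card_pos.trans_le hT
  obtain ⟨M, _, _, _, cl, hsm, hm, h0⟩ := c.ex_cls hAG
  have hne : ∀ (g : GA) {x : Qb}, x ≠ 0 → g x ≠ 0 := fun g _ h => (map_ne_zero _).2 h
  have hL : ∀ (g : A) {x : Qb}, x ≠ 0 → (g3L (g • cl x) (cl x) ↔
      c.Dv ((g : GA) x / x) ∨ c.Dv ((g : GA) x * x)) := fun g x hx => by
    rw [hsm g x hx]
    exact or_congr (cj2_div hm h0 (hne _ hx) hx) (cj2_neg hm h0 (hne _ hx) hx)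
  have hmv : ∀ {x : Qb}, x ≠ 0 → ¬ c.Deg A x → cl x ≠ 0 ∧ ∃ g : A, ¬ g3L (g • cl x) (cl x) :=
    fun {x} hx h => by
      have : ∃ g : A, ¬ g3L (g • cl x) (cl x) := by
        by_contra h'
        push Not at h'
        exact h fun g hg => (hL ⟨g, hg⟩ hx).1 (h' _)
      refine ⟨fun e => ?_, this⟩
      obtain ⟨g, hg⟩ := this
      exact hg (Or.inl (by rw [e, smul_zero]))
  have hind : ∀ {x : Qb} {r : ℕ} {τ : Fin r → A}, x ≠ 0 →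
      LinearIndependent ℤ (fun i => τ i • cl x) → c.Ind fun i => (τ i : GA) x :=
    fun {x r τ} hx h => cj2_ind hm h0 (fun i => hne _ hx) (by simpa only [hsm _ x hx] using h)
  have hDγ := cj2_stab hsm hγ (h2.trans' h3 hB)
  obtain ⟨a0, g0, hg0⟩ := hmv hγ hdA
  have hfin : ∀ e ≤ D, e * (E * d) ≤ E * d * D := fun e he => by
    rw [mul_comm]
    exact Nat.mul_le_mul_left _ he
  rcases hs with ⟨H, Ω, _, _, _, _, φ, o, hφ, ho, hcard, hT⟩ | hs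
  swap
  · have k1 : IdxLe A (B.comap (MulAut.conj (g0 : GA)⁻¹).toMonoidHom) d :=
      h2.comap _ fun σ hσ => by
        simpa using A.mul_mem (A.mul_mem (A.inv_mem g0.2) hσ) g0.2
    obtain ⟨ξ, e, a1, a2, a3, a4⟩ := Ctx.step_V (r := 1) hU hA hB hγ h1 h3 hdB
      (inf_le_left.trans hB) (h2.inf k1) (τ := fun i => (![1, g0] : Fin 2 → A) i)
      (Fin.forall_fin_two.2 ⟨fun w hw => by simpa using hw.1, fun w hw => by simpa using hw.2⟩)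
    exact ⟨1, by omega, ξ, e, E * d, _, _, a1, a2, hfin e a3, fun i => hA (Subtype.prop _),
      hind hγ (pair_of_move a0 hDγ hg0), a4, fun _ => (q3 E d N0 y hE hd hy
        ((pow_le_pow_right₀ hy (by omega)).trans hyN) hs).mono' hy (by linarith)⟩
  rcases hT with ⟨N, hN, hs, ht⟩ | hT | ⟨hP, r, W, r1, r2, hI, hW⟩
  · obtain ⟨e, D1, ξ, he, hD1, heD, hξ, k1, k2⟩ := exists_rig hγ (h2.trans' h3 hB)
    have hξ' := Ctx.dv_tor (c := c) hξ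
    have hβ := mul_ne_zero hξ'.ne (pow_ne_zero e hγ)
    obtain ⟨b0, g1, hg1⟩ := hmv hβ fun h => hdA ((Ctx.deg_pow hAG hγ hξ' he).1 h)
    have k3 : ∀ g : A, φ g • o = o → g3L (g • cl (ξ * γ ^ e)) (cl (ξ * γ ^ e)) := fun g hg =>
      (hL g hβ).2 ((Ctx.deg_pow hBG hγ hξ' he).2 hdB g (ho g hg))
    obtain ⟨r, hr1, hr2, τ, a1, a2⟩ := rad_orbit2 b0 (cj2_stab hsm hβ k1) φ hN hs
      (fun g hg => k3 g (by rw [hg, one_smul])) (by
        obtain ⟨n, hn⟩ := exists_smul_eq N o (φ g1 • o)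
        obtain ⟨g, hg⟩ := hφ n
        refine ⟨g, hg ▸ n.2, fun h => hg1 ?_⟩
        have := (k3 (g⁻¹ * g1) (by
          rw [map_mul, mul_smul, ← hn, map_inv, hg]
          exact inv_smul_smul (n : H) o)).smul g
        rw [mul_smul, smul_inv_smul] at this
        exact this.trans h)
    rw [← hC] at a2
    have a3 : IdxLe A (⨅ i, St ℚ ((τ i : GA) (ξ * γ ^ e))) (C * D1 ^ r) :=
      conj_back a2 fun u hu => Subgroup.mem_iInf.2 fun i => by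
        have h3 := Subgroup.mem_iInf.1 hu i
        rw [mem_stabilizer_iff, hsm _ _ hβ, hsm _ _ (hne _ hβ)] at h3
        exact cj2_fix hm h0 hAG hβ k2 (τ i).2 u.2 h3
    refine ⟨r, by omega, ξ, e, E * D1, _, fun i => τ i, hξ, he, ?_, fun i => hA (τ i).2,
      (Ctx.ind_pow (fun i => hAG (τ i).2) hξ' he).1 (hind hβ a1), (h1.trans' a3 hA).mono ?_,
      q1 r (by omega) _ (Nat.mul_pos hE hD1)⟩
    · rw [mul_left_comm, mul_assoc]
      exact Nat.mul_le_mul_left E heD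
    · rw [mul_left_comm, mul_pow]
      exact Nat.mul_le_mul (by omega) (Nat.mul_le_mul_right _ (Nat.le_self_pow (by omega) E))
  · obtain ⟨r, hr, ξ, e, D1, τ, a1, a2, a3, a4, a5, a6, a7⟩ := H0 ι c U A B γ E d D hU hA hB hγ h1
      h2 h3 (gstep_of φ o ho (hcard ▸ hT)) hdB hdA
    exact ⟨r, by omega, ξ, e, D1, _, τ, a1, a2, a4, a5, a6,
      a7.mono (Nat.mul_le_mul_right _ (by omega)), q1 r (by omega) _ a3⟩
  obtain ⟨τ, a1, a2⟩ := prim_conj a0 hDγ φ hφ o (fun g hg => (hL g hγ).2 (hdB g (ho g hg)))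
    ⟨g0, hg0⟩ hP hW
  obtain ⟨ξ, e, b1, b2, b3, b4⟩ := Ctx.step_V hU hA hB hγ h1 h3 hdB (Subgroup.map_subtype_le _)
    (idx_hom φ (fixingSubgroup H W)) (τ := fun i => τ i) fun i => conj_in ho (τ i) fun s hs =>
      (mem_fixingSubgroup_iff H).1 hs _ (a2 i)
  exact ⟨r, by omega, ξ, e, E * d, _, _, b1, b2, hfin e b3, fun i => hA (τ i).2, hind hγ a1, b4,
    fun h => (q2 _ _ r y hy (hyN.trans (by exact_mod_cast h))
      (sp_prim (by omega) r1 r2 hE hd (hcard ▸ hI))).mono' hy (by linarith)⟩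

end Pool.Agent.Lib.MP_f61260_nt
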