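import Pool.Agent.Lib.MP_f61260_nt.Pr.Tow
import Pool.Agent.Lib.MP_f61260_nt.Pr.Gal

/-! Translation to complex numbers and Mahler measures. -/

set_option autoImplicit false
set_option maxHeartbeats 400000

namespace Pool.Agent.Lib.MP_f61260_nt

open Polynomial Real Filter IntermediateField

lemma pr_ctx (S : Finset ℕ) (Γ : Subgroup ℂˣ) (hΓ : Γ.FG) (halg : ∀ g ∈ Γ, IsAlgebraic ℚ (g : ℂ))
    {G : Set ℂ} (hG : G = {z : ℂ | z ≠ 0 ∧ ∃ k : ℕ, 1 ≤ k ∧ ∃ g ∈ Γ, (g : ℂ) = z ^ k}) :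
    ∃ (ι : Type) (_ : Fintype ι) (c : Ctx ι) (S' : Finset ℕ), (∀ p ∈ S', p.Prime) ∧
      (∀ w : ι → ℤ, Tor (∏ a, c.t a 1 ^ w a) → w = 0) ∧ (∀ x : Qb, c.Dv x ↔ (x : ℂ) ∈ G) ∧
      (∀ y ∈ G, ∃ x : Qb, (x : ℂ) = y) ∧ ∀ n0, 1 ≤ n0 → ∀ X : Set ℂ,
      X = {z : ℂ | ∃ s : ℕ, 1 ≤ s ∧
        (z ^ s = 1 ∨ (s.primeFactors ⊆ S ∧ ∃ g ∈ Γ, (g : ℂ) = z ^ (n0 * s)))} →
      ∃ m n : ℕ → ℕ, (∀ j, Lvl S' n0 (m j) (n j)) ∧ (adjoin ℚ X ≤ EvF fun j => c.Lv (m j) (n j)) ∧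
        ∀ j, ∀ g : GA, (∀ y : Qb, (y : ℂ) ∈ X → g y = y) → g ∈ c.Lv (m j) (n j) := by
  classical
  subst hG
  obtain ⟨ι, _, γ, h1, h2, h3⟩ := fg_basis2 Γ hΓ
  choose t ht1 ht2 using fun a => exists_sys (Complex.log (γ a)) (by
    rw [Complex.exp_log (γ a).ne_zero]; exact halg _ (h1 a))
  obtain ⟨c0⟩ := exists_ctx
  let c : Ctx ι := ⟨c0.z, t, c0.hz, c0.prim, ht1⟩
  have h0 : ∀ a, ((c.t a 1 : Qb) : ℂ) = γ a := fun a =>
    (ht2 a 1).trans (by simp [Complex.exp_log (γ _).ne_zero])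
  have h4 : ∀ w : ι → ℤ, ((∏ a, c.t a 1 ^ w a : Qb) : ℂ) = ((∏ a, γ a ^ w a : ℂˣ) : ℂ) := fun w => by
    simp only [Units.coe_prod, Units.val_zpow_eq_zpow_val]
    refine (map_prod (algebraMap Qb ℂ) _ _).trans (Finset.prod_congr rfl fun a _ => ?_)
    rw [map_zpow₀]
    exact congrArg (· ^ w a) (h0 a)
  have hq : ∀ y : ℂ, (y ≠ 0 ∧ ∃ k : ℕ, 1 ≤ k ∧ ∃ g ∈ Γ, (g : ℂ) = y ^ k) → ∃ x : Qb, (x : ℂ) = y :=
    fun y ⟨_, k, hk, g, hg, h⟩ =>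
      ⟨⟨y, mem_algebraicClosure_iff.2 (IsAlgebraic.of_pow hk (h ▸ halg g hg))⟩, rfl⟩
  obtain ⟨S', hS'⟩ : ∃ S', S' = S.filter Nat.Prime := ⟨_, rfl⟩
  have hS : ∀ p ∈ S', p.Prime := fun p hp => (Finset.mem_filter.1 (hS' ▸ hp)).2
  have hQ : 0 < ∏ p ∈ S', p := Finset.prod_pos fun p hp => (hS p hp).pos
  have hQ' : ∀ j : ℕ, ((∏ p ∈ S', p) ^ j).primeFactors ⊆ S' := fun j p hp => by
    have h5 := Nat.prime_of_mem_primeFactors hp
    obtain ⟨q, hq, h6⟩ := (h5.prime.dvd_finsetProd_iff _).1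
      (h5.dvd_of_dvd_pow (Nat.dvd_of_mem_primeFactors hp))
    rwa [(Nat.prime_dvd_prime_iff_eq h5 (hS q hq)).1 h6]
  refine ⟨ι, inferInstance, c, S', hS, fun w ⟨n, hn, h⟩ => ?_, fun x => ⟨fun h =>
    ⟨fun h' => h.ne (Subtype.ext h'), ?_⟩, fun ⟨_, n, hn, g, hg, h⟩ => ?_⟩, hq, fun n0 hn0 X hX => ?_⟩
  · exact h2 w n hn (Units.ext (by
      rw [Units.val_pow_eq_pow_val, ← h4]
      exact congrArg Subtype.val h))
  · obtain ⟨n, hn, w, h⟩ := h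
    exact ⟨n, hn, _, Γ.prod_mem fun a _ => Γ.zpow_mem (h1 a) (w a), by rw [← h4, ← h]; rfl⟩
  · obtain ⟨w, N, hN, hw⟩ := h3 g hg
    refine ⟨n * N, Nat.mul_pos hn hN, fun a => w a * N, Subtype.ext ?_⟩
    rw [h4]
    simp only [zpow_mul, zpow_natCast, Finset.prod_pow]
    rw [← hw, pow_mul]
    simp [h]
  have hp : ∀ j : ℕ, 0 < n0 * (∏ p ∈ S', p) ^ j := fun j => Nat.mul_pos hn0 (pow_pos hQ j)
  have hp' : ∀ j : ℕ, 0 < n0 * (∏ p ∈ S', p) ^ j * j.factorial := fun j =>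
    Nat.mul_pos (hp j) j.factorial_pos
  refine ⟨fun j => n0 * (∏ p ∈ S', p) ^ j * j.factorial, fun j => n0 * (∏ p ∈ S', p) ^ j,
    fun j => ⟨hn0, hp' j, dvd_mul_right _ _, _, pow_pos hQ j, hQ' j, dvd_rfl⟩,
    adjoin_le_iff.2 fun y hy => ?_, fun j g hg => Ctx.mem_Lv.2 ⟨hg _ ?_, fun a => hg _ ?_⟩⟩
  rotate_left
  · exact hX ▸ ⟨_, hp' j, Or.inl (congrArg Subtype.val (c.prim _ (hp' j)).pow_eq_one)⟩
  · exact hX ▸ ⟨_, pow_pos hQ j, Or.inr ⟨(hQ' j).trans (hS' ▸ Finset.filter_subset _ _), _, h1 a,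
      (h0 a).symm.trans (congrArg Subtype.val ((c.hs a).pw1 (hp j)).symm)⟩⟩
  rw [hX] at hy
  obtain ⟨s, hs, h | ⟨hsS, g, hg, h⟩⟩ := hy
  · obtain ⟨x, rfl⟩ := hq y ⟨fun e => by simp [e, Nat.ne_of_gt hs] at h, s, hs, 1, Γ.one_mem,
      by simp [h]⟩
    refine mem_EvF.2 ?_
    filter_upwards [eventually_ge_atTop s] with j hj σ hσ
    exact Ctx.fix (hp' j) hσ.1 ((Nat.dvd_factorial hs hj).mul_left _) (Subtype.ext h)
  have hM := Nat.mul_pos hn0 hs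
  obtain ⟨x, rfl⟩ := hq y ⟨fun e => g.ne_zero (by rw [h, e, zero_pow hM.ne']), _, hM, g, hg, h⟩
  refine mem_EvF.2 ?_
  obtain ⟨w, N, hN, hw⟩ := h3 g hg
  have h7 : (∏ a, c.t a (n0 * s) ^ w a) ≠ 0 :=
    Finset.prod_ne_zero_iff.2 fun a _ => zpow_ne_zero _ ((c.hs a).ne _)
  have h8 : (x / ∏ a, c.t a (n0 * s) ^ w a) ^ (n0 * s * N) = 1 := by
    have e : ∀ a, (c.t a (n0 * s) ^ w a) ^ (n0 * s) = c.t a 1 ^ w a := fun a => by
      rw [← zpow_natCast, ← zpow_mul, mul_comm (w a), zpow_mul, zpow_natCast, (c.hs a).pw1 hM]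
    rw [div_pow, div_eq_one_iff_eq (pow_ne_zero _ h7), pow_mul _ _ N, pow_mul _ _ N,
      ← Finset.prod_pow _ (n0 * s), Finset.prod_congr rfl fun a _ => e a]
    refine Subtype.ext ?_
    change ((x : ℂ) ^ (n0 * s)) ^ N = ((∏ a, c.t a 1 ^ w a : Qb) : ℂ) ^ N
    rw [h4, ← h, ← Units.val_pow_eq_pow_val, hw, Units.val_pow_eq_pow_val]
  filter_upwards [eventually_ge_atTop s, eventually_ge_atTop N] with j hj hj' σ hσ
  have h9 : n0 * s ∣ n0 * (∏ p ∈ S', p) ^ j := mul_dvd_mul_left _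
    ((Nat.dvd_prod_primeFactors_pow_self (Nat.ne_of_gt hs)).trans
      ((pow_dvd_pow_of_dvd (Finset.prod_dvd_prod_of_subset _ _ _ (hS' ▸ fun p hp =>
          Finset.mem_filter.2 ⟨hsS hp, Nat.prime_of_mem_primeFactors hp⟩)) _).trans
        (pow_dvd_pow _ hj)))
  have h10 := Ctx.Lv_mono (hp' j) (hp j) (mul_dvd_mul h9 (Nat.dvd_factorial hN hj')) h9 hσ
  have h11 := Ctx.fix (Nat.mul_pos hM hN) h10.1 dvd_rfl h8
  rwa [map_div₀, Fx.prod (A := c.Lv (n0 * s * N) (n0 * s)) _ (fun a _ =>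
    Fx.zpow (fun _ hσ => (Ctx.mem_Lv.1 hσ).2 a) _) σ h10, div_left_inj' h7] at h11

lemma crit_deg {F : IntermediateField ℚ ℂ} (hle : F ≤ algebraicClosure ℚ ℂ) {U : Subgroup GA}
    (hU : ∀ g : GA, (∀ y : Qb, (y : ℂ) ∈ F → g y = y) → g ∈ U) (x : Qb) {J : ℕ}
    (h : IdxLe U (St ℚ x) J) : (minpoly F (x : ℂ)).natDegree ≤ J := by
  classical
  obtain ⟨T, hT⟩ := h
  choose g h1 h2 using fun β : (minpoly F (x : ℂ)).rootSet ℂ =>
    fn2_conj hle x (mem_rootSet.1 β.2).2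
  rw [← card_rootSet_eq_natDegree (K := ℂ) (minpoly.irreducible (ev_int F x)).separable
    (IsAlgClosed.splits _)]
  refine (Fintype.card_le_of_injective (fun β => T.idx (hU _ (h2 β))) fun β β' e => ?_).trans hT
  have a := T.idx_spec (hU _ (h2 β))
  have b := T.idx_spec (hU _ (h2 β'))
  rw [show T.idx (hU _ (h2 β)) = T.idx (hU _ (h2 β')) from e] at a
  refine Subtype.ext ((h1 β).symm.trans (Eq.trans (congrArg _ ?_) (h1 β')))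
  exact (T.r _)⁻¹.injective ((mem_St.1 a).trans (mem_St.1 b).symm)

theorem crit_tower (S : Finset ℕ) (Γ : Subgroup ℂˣ) (hΓ : Γ.FG)
    (halg : ∀ g ∈ Γ, IsAlgebraic ℚ (g : ℂ)) (G : Set ℂ)
    (hG : G = {z : ℂ | z ≠ 0 ∧ ∃ k : ℕ, 1 ≤ k ∧ ∃ g ∈ Γ, (g : ℂ) = z ^ k}) (m : ℕ) :
    ∃ c : ℝ, 0 < c ∧ ∃ δ : ℝ, 0 < δ ∧ ∃ κ : ℕ, ∀ n : ℕ, 1 ≤ n →
      ∀ (θ : ℕ → ℂ) (F : ℕ → IntermediateField ℚ ℂ) (d : ℕ → ℕ), (∀ i, IsAlgebraic ℚ (θ i)) →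
      F 0 = adjoin ℚ {z : ℂ | ∃ s : ℕ, 1 ≤ s ∧
        (z ^ s = 1 ∨ (s.primeFactors ⊆ S ∧ ∃ g ∈ Γ, (g : ℂ) = z ^ (n * s)))} →
      (∀ i, F (i + 1) = adjoin ℚ (insert (θ i) (F i : Set ℂ))) →
      (∀ i, d i = (minpoly (F i) (θ i)).natDegree) →
      ∀ α : ℂ, α ≠ 0 → α ∉ G → ∀ η ∈ G, ∀ j t : ℕ, j ≤ t → α * η ∈ F t →
      ∀ N : ℕ, 1 ≤ N → (∀ e : ℕ, 1 ≤ e → N ≤ (minpoly (F j) ((α * η) ^ e)).natDegree) →
      (∀ i, j ≤ i → i < t →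
        (∃ β : ℂ, aeval β (minpoly (F i) (α * η)) = 0 ∧ β / α ∉ G ∧ β * α ∉ G) →
        (∀ β : ℂ, aeval β (minpoly (F (i + 1)) (α * η)) = 0 → β / α ∈ G ∨ β * α ∈ G) →
        Tame m (minpoly (F i) (θ i)).Gal
          ((minpoly (F i) (θ i)).rootSet (minpoly (F i) (θ i)).SplittingField) ∨
        N * Real.log (3 * d i) ^ κ ≤ (∏ l ∈ Finset.range i, d l : ℕ)) →
      ∀ f : Polynomial ℤ, Irreducible f → aeval α f = 0 →
        c * (N : ℝ) ^ δ / ((∏ i ∈ Finset.range t, d i : ℕ) *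
            Real.log (3 * (n * (∏ i ∈ Finset.range j, d i : ℕ))) ^ κ)
          ≤ Real.log (mahlerMeasure (f.map (Int.castRingHom ℂ))) / (f.natDegree : ℝ) := by
  obtain ⟨ι, _, c, S', hS, hind, h5, hq, hL⟩ := pr_ctx S Γ hΓ halg hG
  obtain ⟨C, hC, δ, hδ, κ, h6⟩ := c.tower_main_pr S' hS hind m
  refine ⟨C, hC, δ, hδ, κ,
    fun n0 hn0 θ F d hθ hF0 hF hd α hα hnd η hη j t hj hmem N hN1 hN hst f hf hfα => ?_⟩
  lift θ to ℕ → Qb using fun i => mem_algebraicClosure_iff.2 (hθ i)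
  obtain ⟨m1, n1, hl, hX, hX'⟩ := hL n0 hn0 _ rfl
  rw [← hF0] at hX
  lift α to Qb using mem_algebraicClosure_iff.2
    (IsAlgebraic.extendScalars (FaithfulSMul.algebraMap_injective ℤ ℚ) ⟨f, hf.ne_zero, hfα⟩)
  obtain ⟨η, rfl⟩ := hq η hη
  have hη' := (h5 η).2 hη
  have hα' : α ≠ 0 := fun h => hα (congrArg Subtype.val h)
  let U : ℕ → ℕ → Subgroup GA := fun i k => c.Lv (m1 k) (n1 k) ⊓ ⨅ l < i, St ℚ (θ l)
  have u1 : ∀ i k, U (i + 1) k = U i k ⊓ St ℚ (θ i) := fun i k => by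
    simp only [U, Nat.iInf_lt_succ, inf_assoc]
  have u2 : ∀ i k, ∀ l < i, U i k ≤ St ℚ (θ l) := fun i k l hl =>
    inf_le_right.trans (iInf₂_le l hl)
  have u4 : ∀ i, F i ≤ EvF (U i) := fun i =>
    fn2_tower hF (hX.trans (EvF_mono fun _ => inf_le_left)) i fun l hl k => u2 i k l hl
  have u5 : ∀ i, ∀ l < i, (θ l : ℂ) ∈ F i := fun i => by
    induction i with
    | zero => simp
    | succ i ih =>
      intro l hl
      rw [hF]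
      refine subset_adjoin _ _ ?_
      rcases (Nat.lt_succ_iff.1 hl).eq_or_lt with rfl | h
      · exact Set.mem_insert _ _
      · exact Set.mem_insert_of_mem _ (ih l h)
  have u6 : ∀ i, F 0 ≤ F i := fun i => by
    induction i with
    | zero => exact le_rfl
    | succ i ih =>
      rw [hF]
      exact fun y hy => subset_adjoin _ _ (Set.mem_insert_of_mem _ (ih hy))
  have u7 : ∀ i k, ∀ g : GA, (∀ y : Qb, (y : ℂ) ∈ F i → g y = y) → g ∈ U i k := fun i k g hg =>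
    ⟨hX' k g fun y hy => hg y (u6 i (hF0 ▸ subset_adjoin _ _ hy)),
      Subgroup.mem_iInf.2 fun l => Subgroup.mem_iInf.2 fun hl => hg _ (u5 _ l hl)⟩
  obtain ⟨k, e1, e2, e3, e4⟩ := (((mem_EvF (x := α * η)).1 (u4 t hmem)).and
    (((eventually_all_finset (Finset.range t)).2 fun i _ => ev_idx (u4 i) (θ i)).and
      (((eventually_all_finset (Finset.range t)).2 fun i _ =>
        ev_gal2 (u4 i) (u7 i) (θ i) rfl).and
        ((eventually_all_finset (Finset.range t)).2 fun i _ =>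
          ev_root (u4 i) (minpoly (F i) ((α : ℂ) * η)))))).exists
  refine (h6 α η n0 _ _ j t N (U · k) d hN1 (fun e J he h => (hN e he).trans
    (crit_deg ((u4 j).trans EvF_alg) (u7 j k) ((α * η) ^ e) h)) (hl k) hj hα' (fun h => hnd ((h5 α).1 h)) hη' (by simp [U])
    (fun i hi => ⟨(u1 i k).le.trans inf_le_left, ?_, fun hji hdeg hnd' => ?_⟩) e1).trans
    (ht_le_mahler hf ((algebraMap Qb ℂ).injective (by
      rw [← Polynomial.aeval_algebraMap_apply, map_zero]; exact hfα)))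
  · rw [hd, u1]
    exact (e2 i (Finset.mem_range.2 hi)).restrict le_rfl le_rfl
  have a : ∃ β : ℂ, aeval β (minpoly (F i) ((α : ℂ) * η)) = 0 ∧ β / α ∉ G ∧ β * α ∉ G := by
    by_contra h
    refine hnd' fun g hg => ?_
    by_contra h'
    refine h ⟨g (α * η), e4 i (Finset.mem_range.2 hi) g hg (α * η) (minpoly.aeval _ _),
      fun b => h' (Or.inl ?_), fun b => h' (Or.inr ?_)⟩
    · have := ((h5 (g (α * η) / α)).2 b).mul hη'.inv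
      rwa [← div_eq_mul_inv, div_div] at this
    · have := ((h5 (g (α * η) * α)).2 b).mul hη'
      rwa [mul_assoc] at this
  have b : ∀ β : ℂ, aeval β (minpoly (F (i + 1)) ((α : ℂ) * η)) = 0 → β / α ∈ G ∨ β * α ∈ G := by
    intro β h
    obtain ⟨g, rfl, hg⟩ := fn2_conj ((u4 _).trans EvF_alg) (α * η) h
    refine (hdeg g (u7 _ k g hg)).imp (fun b => (h5 (g (α * η) / α)).1 ?_)
      fun b => (h5 (g (α * η) * α)).1 ?_
    · have := b.mul hη'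
      rwa [← div_div, div_mul_cancel₀ _ hη'.ne] at this
    · have := b.mul hη'.inv
      rwa [← mul_assoc, mul_inv_cancel_right₀ hη'.ne] at this
  rcases hst i hji hi a b with h | h
  · obtain ⟨φ, o, a1, a2⟩ := e3 i (Finset.mem_range.2 hi)
    exact Or.inl ⟨_, _, _, inferInstance, _, inferInstance, φ, o, a1,
      fun g hg => (u1 i k).ge ⟨g.2, a2 g hg⟩, (card_roots_eq _ _).trans (hd i).symm, h⟩
  · exact Or.inr h

end Pool.Agent.Lib.MP_f61260_nt
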