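import Pool.Agent.Lib.MP_f61260_nt.Pr.Step

/-! The tower. -/

set_option autoImplicit false
set_option maxHeartbeats 400000

namespace Pool.Agent.Lib.MP_f61260_nt

open Real

lemma crit_idx {U U' W : Subgroup GA} {γ ξ : Qb} {e J : ℕ} {τ : GA} (hU : U' ≤ U) (hτ : τ ∈ U)
    (hξ : Tor ξ) (he : 0 < e) (h : IdxLe U W J) (hW : W ≤ St ℚ (τ (ξ * γ ^ e))) :
    ∃ e', 0 < e' ∧ IdxLe U' (St ℚ (γ ^ e')) J := by
  obtain ⟨o, ho, h1⟩ := hξ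
  have h2 := idx_conj (W := U') (g := τ⁻¹) (h.restrict le_rfl (inf_le_right.trans hW))
    fun w hw => U.mul_mem (U.mul_mem (U.inv_mem (U.inv_mem hτ)) (hU hw)) (U.inv_mem hτ)
  rw [← AlgEquiv.mul_apply, inv_mul_cancel, AlgEquiv.one_apply] at h2
  refine ⟨e * o, Nat.mul_pos he ho, h2.restrict le_rfl fun g hg => ?_⟩
  have h3 : γ ^ (e * o) = (ξ * γ ^ e) ^ o := by rw [mul_pow, h1, one_mul, pow_mul]
  rw [mem_St, h3, map_pow, mem_St.1 hg.2]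

theorem Ctx.tower_pr (μ : ℕ) : ∃ R M : ℕ, 0 < M ∧ ∀ κ : ℕ, ∃ K : ℝ, 0 < K ∧
    ∀ (ι : Type) [Fintype ι]
    (c : Ctx ι) (U : ℕ → Subgroup GA) (d : ℕ → ℕ) (j t : ℕ) (γ : Qb) (N : ℕ) (y : ℝ), 1 ≤ y →
    y ^ (2 * M) ≤ N → (∀ e J, 0 < e → IdxLe (U j) (St ℚ (γ ^ e)) J → N ≤ J) →
    j ≤ t → U 0 ≤ c.G0 → γ ≠ 0 →
    ¬ c.Dv γ → (∀ i < t, U (i + 1) ≤ U i ∧ IdxLe (U i) (U (i + 1)) (d i) ∧
      (j ≤ i → c.Deg (U (i + 1)) γ → ¬ c.Deg (U i) γ → PStep μ (U i) (U (i + 1)) (d i) ∨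
        N * log (3 * d i) ^ κ ≤ (∏ l ∈ Finset.range i, d l : ℕ))) → Fx (U t) γ →
    ∃ r ≤ R, ∃ (ξ : Qb) (e E D1 J : ℕ) (τ : Fin (r + 1) → GA), Tor ξ ∧ 0 < e ∧ 0 < E ∧
      E ≤ ∏ i ∈ Finset.range j, d i ∧ e * E * D1 ≤ ∏ i ∈ Finset.range t, d i ∧
      (∀ i, τ i ∈ U 0) ∧ (c.Ind fun i => τ i γ) ∧
      IdxLe (U 0) (⨅ i, St ℚ (τ i (ξ * γ ^ e))) (E * J) ∧ Sm κ (K / y) J D1 r := by
  classical
  obtain ⟨R, M, hM, H⟩ := Ctx.step_pr μ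
  refine ⟨R, M, hM, fun κ => ?_⟩
  obtain ⟨K, hK, H⟩ := H κ
  obtain ⟨K1, p1, q1⟩ := sp_sm M κ hM (K := ((2 : ℕ) : ℝ) ^ (M + 1)) (one_le_pow₀ (by norm_num))
  refine ⟨K + K1, by positivity, fun ι _ c U d j t γ N y hy hyN hN hj hU hγ hnd h hf => ?_⟩
  have h' := fun a b => mn3_idx (a := a) (b := b) fun i hi => ⟨(h i hi).1, (h i hi).2.1⟩
  have h1 : ∀ a ≤ t, IdxLe (U a) (St ℚ γ) (∏ i ∈ Finset.Ico a t, d i) := fun a ha =>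
    (h' a t ha le_rfl).2.restrict le_rfl (inf_le_right.trans hf.le)
  have h2 : ∀ a ≤ t, U a ≤ U 0 ∧ IdxLe (U 0) (U a) (∏ i ∈ Finset.range a, d i) := fun a ha => by
    rw [Finset.range_eq_Ico]
    exact h' 0 a a.zero_le ha
  have hE : 0 < ∏ i ∈ Finset.range j, d i := let ⟨T, hT⟩ := (h2 j hj).2; T.card_pos.trans_le hT
  by_cases hd : c.Deg (U j) γ
  · have hG := (h2 j hj).1.trans hU
    obtain ⟨e, D1, ξ, he, hD1, heD, hξ, -, k2⟩ := exists_rig hγ (h1 j hj)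
    have hξ' := Ctx.dv_tor (c := c) hξ
    have k3 := Ctx.deg_two hG (mul_ne_zero hξ'.ne (pow_ne_zero e hγ)) k2
      ((Ctx.deg_pow hG hγ hξ' he).2 hd)
    obtain ⟨e', he', k5⟩ := crit_idx (τ := 1) le_rfl (U j).one_mem hξ he k3 le_rfl
    refine ⟨0, R.zero_le, ξ, e, _, 1, 2, fun _ => 1, hξ, he, hE, le_rfl, ?_,
      fun _ => (U 0).one_mem, fun a ha k4 => hnd ?_, ((h2 j hj).2.trans' k3 (h2 j hj).1).restrict
        le_rfl (inf_le_right.trans (le_iInf fun _ => le_rfl)),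
      (q1 2 1 0 y hy (hyN.trans (by exact_mod_cast hN e' 2 he' k5)) (by simp)).mono' hy
        (by linarith)⟩
    · rw [mul_one, mul_comm, ← Finset.prod_range_mul_prod_Ico d hj]
      exact Nat.mul_le_mul_left _ ((Nat.le_mul_of_pos_right e hD1).trans heD)
    · have ha0 : a 0 ≠ 0 := fun h0 => ha (funext fun i => by
        rw [Subsingleton.elim (α := Fin 1) i 0]; exact h0)
      exact Ctx.Dv.of_zpow ha0 (by simpa [mon] using k4)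
  have hex : ∃ n, j ≤ n ∧ c.Deg (U n) γ := ⟨t, hj, fun g hg => Or.inl (by
    rw [hf g hg, div_self hγ]; exact Ctx.dv_tor ⟨1, one_pos, one_pow 1⟩)⟩
  have k0 : Nat.find hex ≤ t := Nat.find_min' hex ⟨hj, fun g hg => Or.inl (by
    rw [hf g hg, div_self hγ]; exact Ctx.dv_tor ⟨1, one_pos, one_pow 1⟩)⟩
  obtain ⟨k1, k2⟩ := Nat.find_spec hex
  have k3 : Nat.find hex ≠ j := fun e => hd (e ▸ k2)
  obtain ⟨i, hi⟩ : ∃ i, Nat.find hex = i + 1 := ⟨Nat.find hex - 1, by omega⟩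
  have k4 : ¬ c.Deg (U i) γ := fun e => Nat.find_min hex (show i < Nat.find hex by omega)
    ⟨by omega, e⟩
  rw [hi] at k0 k1 k2 k3
  obtain ⟨r, hr, ξ, e, D1, J, τ, a1, a2, a4, a5, a6, a7, a8⟩ := H ι c (U 0) (U i) (U (i + 1)) γ _ _
    _ N y hy hyN hU (h2 i (by omega)).1 (h i k0).1 hγ (h2 i (by omega)).2 (h i k0).2.1 (h1 (i + 1) k0)
    ((h i k0).2.2 (by omega) k2 k4) k2 k4
  obtain ⟨e', he', k5⟩ := crit_idx (h2 j hj).1 (a5 0) a1 a2 a7 (iInf_le _ 0)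
  refine ⟨r, hr, ξ, e, 1, D1, J, τ, a1, a2, one_pos, hE, ?_, a5, a6, a7.mono (one_mul J).ge,
    (a8 (hN e' J he' k5)).mono' hy (by linarith)⟩
  rwa [mul_one, ← Finset.prod_range_mul_prod_Ico d k0, Finset.prod_range_succ]

theorem Ctx.tower_main_pr {ι : Type} [Fintype ι] (c : Ctx ι) (S : Finset ℕ)
    (hS : ∀ p ∈ S, p.Prime) (hind : ∀ w : ι → ℤ, Tor (∏ a, c.t a 1 ^ w a) → w = 0) (μ : ℕ) :
    ∃ C > (0 : ℝ), ∃ δ > (0 : ℝ), ∃ κ : ℕ, ∀ (α η : Qb) (n0 m n j t N : ℕ) (U : ℕ → Subgroup GA)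
      (d : ℕ → ℕ), 1 ≤ N → (∀ e J, 0 < e → IdxLe (U j) (St ℚ ((α * η) ^ e)) J → N ≤ J) →
      Lvl S n0 m n → j ≤ t → α ≠ 0 → ¬ c.Dv α → c.Dv η → U 0 = c.Lv m n →
      (∀ i < t, U (i + 1) ≤ U i ∧ IdxLe (U i) (U (i + 1)) (d i) ∧
        (j ≤ i → c.Deg (U (i + 1)) (α * η) → ¬ c.Deg (U i) (α * η) →
          PStep μ (U i) (U (i + 1)) (d i) ∨
          N * log (3 * d i) ^ κ ≤ (∏ l ∈ Finset.range i, d l : ℕ))) →
      Fx (U t) (α * η) → C * N ^ δ / ((∏ i ∈ Finset.range t, d i : ℕ) *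
        log (3 * (n0 * (∏ i ∈ Finset.range j, d i : ℕ))) ^ κ) ≤ ht α := by
  obtain ⟨R, M, hM, h1⟩ := Ctx.tower_pr μ
  choose C1 hC1 κ hrel using fun r => c.relAD2 S hS hind (r + 1)
  obtain ⟨K, hK, h1⟩ := h1 (∑ r ∈ Finset.range (R + 1), κ r)
  obtain ⟨r0, -, hr0⟩ := Finset.exists_min_image (Finset.range (R + 1)) C1 ⟨0, by simp⟩
  refine ⟨min 1 (C1 r0 / (K * 2 ^ ∑ r ∈ Finset.range (R + 1), κ r)),
    lt_min one_pos (div_pos (hC1 r0) (by positivity)), (((R + 1) * (2 * M) : ℕ) : ℝ)⁻¹,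
    by positivity, ∑ r ∈ Finset.range (R + 1), κ r,
    fun α η n0 m n j t N U d hN1 hN hl hj hα hd hη hU htw hf => ?_⟩
  have N1 : (1 : ℝ) ≤ N := by exact_mod_cast hN1
  have hy : (1 : ℝ) ≤ (N : ℝ) ^ (((R + 1) * (2 * M) : ℕ) : ℝ)⁻¹ := one_le_rpow N1 (by positivity)
  have hG : U 0 ≤ c.G0 := hU ▸ Ctx.Lv_le hl.npos
  obtain ⟨r, hr, ξ, e, E, D1, J, τ, hξ, he, hE, hE', hD, a7, hnd, hidx, hs⟩ := h1 ι c U d j t
    (α * η) N _ (one_le_pow₀ (n := R + 1) hy) (by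
      rw [← pow_mul, rpow_inv_natCast_pow (by positivity) (by positivity)]) hN
    hj hG (mul_ne_zero hα hη.ne) (fun h => hd (by
      have := h.mul hη.inv
      rwa [mul_inv_cancel_right₀ hη.ne] at this)) htw hf
  have hτ := fun i => hG (a7 i)
  have hr' : r ∈ Finset.range (R + 1) := Finset.mem_range.2 (Nat.lt_succ_of_le hr)
  have hx : c.Dv (ξ * η ^ e) := (Ctx.dv_tor hξ).mul (hη.pow e)
  have hαe : α ^ e ≠ 0 := pow_ne_zero _ hα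
  have e1 : ξ * (α * η) ^ e = α ^ e * (ξ * η ^ e) := by rw [mul_pow]; ring
  have e2 : ξ * (α * η) ^ e * (ξ * η ^ e)⁻¹ = α ^ e := by
    rw [e1, mul_inv_cancel_right₀ hx.ne]
  have h2 := hrel r (fun i => τ i (ξ * (α * η) ^ e)) n0 m n _ (e * ht α) hl
    (fun i => (_root_.map_ne_zero _).2 (e1 ▸ mul_ne_zero hαe hx.ne))
    ((Ctx.ind_pow hτ (Ctx.dv_tor hξ) he).2 hnd) (hU ▸ hidx) fun i => by
      obtain ⟨ζ, h1, h2⟩ := hx.inv.act _ (hτ i)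
      refine ⟨τ i (ξ * η ^ e)⁻¹, h2 ▸ (Ctx.dv_tor h1).mul hx.inv, le_of_eq ?_⟩
      rw [← map_mul, e2, ht_conj, ht_pow]
  have h3 := pr_num2 hK (hC1 r0) hy hr
    (Finset.single_le_sum (f := κ) (fun _ _ => Nat.zero_le _) hr') hl.pos0 hE
    hE' hD (ht_nonneg α) hs ((hr0 r hr').trans h2)
  have hD0 : (0 : ℝ) < (∏ i ∈ Finset.range t, d i : ℕ) := by
    exact_mod_cast Finset.prod_pos fun i hi =>
      let ⟨T, hT⟩ := (htw i (Finset.mem_range.1 hi)).2.1; T.card_pos.trans_le hT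
  have hL : 1 ≤ log (3 * ((n0 : ℝ) * (∏ i ∈ Finset.range j, d i : ℕ))) := mn2_one (by
    exact_mod_cast Nat.mul_pos hl.pos0 (hE.trans_le hE'))
  rw [div_le_iff₀ (by positivity)]
  exact h3.trans (le_of_eq (by ring))

end Pool.Agent.Lib.MP_f61260_nt
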